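import Mathlib

/-!
Grid couplings for the three intervals game: definitions, symmetries, divisibility and the
transport lemma derived from Hall's marriage theorem.
-/

namespace Pool.Agent.KS6_49.TI

open Finset

/-- The grid cells `[a/A,(a+1)/A]` and `[b/B,(b+1)/B]` have disjoint interiors. -/
def Dj (a A b B : ℕ) : Prop := (a + 1) * B ≤ b * A ∨ (b + 1) * A ≤ a * B

instance (a A b B : ℕ) : Decidable (Dj a A b B) := by unfold Dj; infer_instance

lemma Dj.symm {a A b B : ℕ} (h : Dj a A b B) : Dj b B a A := by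
  unfold Dj at *
  rcases h with h | h
  · exact Or.inr h
  · exact Or.inl h

/-- There is a distribution on triples of pairwise disjoint grid cells with uniform marginals. -/
def Good (u v w : ℕ) : Prop :=
  ∃ (T : ℕ) (m : ℕ → ℕ → ℕ → ℕ), 0 < T ∧
    (∀ i j k, m i j k ≠ 0 → Dj i u j v ∧ Dj i u k w ∧ Dj j v k w) ∧
    (∀ i < u, u * ∑ j ∈ range v, ∑ k ∈ range w, m i j k = T) ∧
    (∀ j < v, v * ∑ i ∈ range u, ∑ k ∈ range w, m i j k = T) ∧
    (∀ k < w, w * ∑ i ∈ range u, ∑ j ∈ range v, m i j k = T)

lemma Good.swap12 {u v w : ℕ} (h : Good u v w) : Good v u w := by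
  obtain ⟨T, m, hT, hd, h1, h2, h3⟩ := h
  refine ⟨T, fun i j k => m j i k, hT, ?_, h2, h1, ?_⟩
  · intro i j k hm
    obtain ⟨a, b, c⟩ := hd j i k hm
    exact ⟨a.symm, c, b⟩
  · intro k hk
    rw [Finset.sum_comm]
    exact h3 k hk

lemma Good.swap23 {u v w : ℕ} (h : Good u v w) : Good u w v := by
  obtain ⟨T, m, hT, hd, h1, h2, h3⟩ := h
  refine ⟨T, fun i j k => m i k j, hT, ?_, ?_, h3, h2⟩
  · intro i j k hm
    obtain ⟨a, b, c⟩ := hd i k j hm
    exact ⟨b, a, c.symm⟩
  · intro i hi
    rw [Finset.sum_comm]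
    exact h1 i hi

lemma sum_range_mul_div (f : ℕ → ℕ) (a u : ℕ) :
    ∑ i ∈ range (a * u), f (i / a) = a * ∑ i ∈ range u, f i := by
  rcases Nat.eq_zero_or_pos a with rfl | ha
  · simp
  induction u with
  | zero => simp
  | succ u ih =>
    rw [Nat.mul_succ, Finset.sum_range_add, ih, Finset.sum_range_succ, mul_add]
    congr 1
    have : ∀ x ∈ range a, f ((a * u + x) / a) = f u := by
      intro x hx
      have hx' := Finset.mem_range.1 hx
      congr 1
      rw [Nat.mul_add_div ha, Nat.div_eq_of_lt hx', add_zero]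
    rw [Finset.sum_congr rfl this]
    simp

lemma Dj.refine {a A b B c : ℕ} (hc : 0 < c) (h : Dj (a / c) A b B) : Dj a (c * A) b B := by
  unfold Dj at *
  have h1 : a < (a / c + 1) * c := by
    have := Nat.lt_div_mul_add (a := a) hc
    nlinarith
  have h2 : (a / c) * c ≤ a := Nat.div_mul_le_self a c
  rcases h with h | h
  · left
    calc (a + 1) * B ≤ ((a / c + 1) * c) * B := Nat.mul_le_mul_right _ h1
      _ = c * ((a / c + 1) * B) := by ring
      _ ≤ c * (b * A) := Nat.mul_le_mul_left _ h
      _ = b * (c * A) := by ring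
  · right
    calc (b + 1) * (c * A) = c * ((b + 1) * A) := by ring
      _ ≤ c * ((a / c) * B) := Nat.mul_le_mul_left _ h
      _ = ((a / c) * c) * B := by ring
      _ ≤ a * B := Nat.mul_le_mul_right _ h2

lemma Good.mul1 {u v w : ℕ} (h : Good u v w) {a : ℕ} (ha : 0 < a) : Good (a * u) v w := by
  obtain ⟨T, m, hT, hd, h1, h2, h3⟩ := h
  refine ⟨a * T, fun i j k => m (i / a) j k, Nat.mul_pos ha hT, ?_, ?_, ?_, ?_⟩
  · intro i j k hm
    obtain ⟨x, y, z⟩ := hd _ j k hm
    exact ⟨x.refine ha, y.refine ha, z⟩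
  · intro i hi
    have : i / a < u := Nat.div_lt_of_lt_mul hi
    rw [mul_assoc, h1 _ this]
  · intro j hj
    rw [sum_range_mul_div (fun i => ∑ k ∈ range w, m i j k) a u, mul_left_comm, h2 j hj]
  · intro k hk
    rw [sum_range_mul_div (fun i => ∑ j ∈ range v, m i j k) a u, mul_left_comm, h3 k hk]

lemma Good.mul2 {u v w : ℕ} (h : Good u v w) {a : ℕ} (ha : 0 < a) : Good u (a * v) w :=
  (h.swap12.mul1 ha).swap12

lemma Good.mul3 {u v w : ℕ} (h : Good u v w) {a : ℕ} (ha : 0 < a) : Good u v (a * w) :=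
  (h.swap23.mul2 ha).swap23

lemma Good.dvd1 {u u' v w : ℕ} (h : Good u v w) (hd : u ∣ u') (hu : 0 < u') : Good u' v w := by
  obtain ⟨a, rfl⟩ := hd
  rw [mul_comm]
  exact h.mul1 (Nat.pos_of_mul_pos_left hu)

lemma Good.dvd2 {u v v' w : ℕ} (h : Good u v w) (hd : v ∣ v') (hu : 0 < v') : Good u v' w :=
  (h.swap12.dvd1 hd hu).swap12

lemma Good.dvd3 {u v w w' : ℕ} (h : Good u v w) (hd : w ∣ w') (hu : 0 < w') : Good u v w' :=
  (h.swap23.dvd2 hd hu).swap23

/-- Transport lemma. `P` is a finite set of configurations with weights `n`, `B p` is the set of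
cells blocked by `p`.  Under the Hall condition there is an integral transport. -/
theorem transport {ι : Type*} [DecidableEq ι] (P : Finset ι) (n : ι → ℕ) (w T : ℕ)
    (B : ι → Finset ℕ)
    (hT : ∑ p ∈ P, n p = T)
    (hall : ∀ S ⊆ P, S.Nonempty →
      w * (∑ p ∈ S, n p) + T * ((range w).filter (fun k => ∀ p ∈ S, k ∈ B p)).card ≤ T * w) :
    ∃ m : ι → ℕ → ℕ, (∀ p k, m p k ≠ 0 → p ∈ P ∧ k < w ∧ k ∉ B p) ∧
      (∀ p ∈ P, ∑ k ∈ range w, m p k = w * n p) ∧
      (∀ k < w, ∑ p ∈ P, m p k = T) := by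
  classical
  let I := Σ p : {p // p ∈ P}, Fin (w * n p.1)
  let t : I → Finset (ℕ × ℕ) := fun x => ((range w).filter (fun k => k ∉ B x.1.1)) ×ˢ range T
  have hH : ∀ s : Finset I, s.card ≤ (s.biUnion t).card := by
    intro s
    rcases s.eq_empty_or_nonempty with rfl | hs
    · simp
    let S : Finset ι := s.image (fun x => x.1.1)
    have hSP : S ⊆ P := by
      intro p hp
      obtain ⟨x, _, rfl⟩ := Finset.mem_image.1 hp
      exact x.1.2
    have hSn : S.Nonempty := hs.image _
    have h1 : s.card ≤ w * ∑ p ∈ S, n p := by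
      have : s ⊆ (S.subtype (· ∈ P)).sigma (fun p => (Finset.univ : Finset (Fin (w * n p.1)))) := by
        intro x hx
        rw [Finset.mem_sigma]
        refine ⟨?_, Finset.mem_univ _⟩
        rw [Finset.mem_subtype]
        exact Finset.mem_image_of_mem _ hx
      calc s.card ≤ _ := Finset.card_le_card this
        _ = ∑ p ∈ S.subtype (· ∈ P), w * n p.1 := by
            rw [Finset.card_sigma]; simp
        _ = ∑ p ∈ S, w * n p := by
            rw [Finset.sum_subtype_of_mem (fun p => w * n p) (fun x hx => hSP hx)]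
        _ = w * ∑ p ∈ S, n p := by rw [Finset.mul_sum]
    have h2 : s.biUnion t =
        ((range w).filter (fun k => ¬ ∀ p ∈ S, k ∈ B p)) ×ˢ range T := by
      ext ⟨k, c⟩
      simp only [Finset.mem_biUnion, Finset.mem_product, Finset.mem_filter, 
        t, S, Finset.mem_image, not_forall]
      constructor
      · rintro ⟨x, hx, ⟨hk0, hk⟩, hc⟩
        exact ⟨⟨hk0, x.1.1, ⟨x, hx, rfl⟩, hk⟩, hc⟩
      · rintro ⟨⟨hk0, p, ⟨x, hx, rfl⟩, hk⟩, hc⟩
        exact ⟨x, hx, ⟨hk0, hk⟩, hc⟩
    have h4 := hall S hSP hSn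
    rw [h2, Finset.card_product, Finset.card_range]
    have h5 := Finset.card_filter_add_card_filter_not (s := range w)
      (fun k => ∀ p ∈ S, k ∈ B p)
    rw [Finset.card_range] at h5
    nlinarith
  obtain ⟨f, hfi, hft⟩ := (Finset.all_card_le_biUnion_card_iff_exists_injective t).1 hH
  have hft' : ∀ x, (f x).1 < w ∧ (f x).1 ∉ B x.1.1 ∧ (f x).2 < T := by
    intro x
    have := hft x
    simp only [t, Finset.mem_product, Finset.mem_filter, Finset.mem_range] at this
    exact ⟨this.1.1, this.1.2, this.2⟩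
  have hcardI : (Finset.univ : Finset I).card = w * T := by
    rw [← hT, Finset.mul_sum, ← Finset.sum_coe_sort]
    simp [I]
  have himg : (Finset.univ : Finset I).image f = range w ×ˢ range T := by
    apply Finset.eq_of_subset_of_card_le
    · intro y hy
      obtain ⟨x, _, rfl⟩ := Finset.mem_image.1 hy
      obtain ⟨a, b, c⟩ := hft' x
      simp [a, c]
    · rw [Finset.card_image_of_injective _ hfi, hcardI, Finset.card_product]
      simp
  let m : ι → ℕ → ℕ := fun p k => if hp : p ∈ P then
    ((Finset.univ : Finset (Fin (w * n p))).filter (fun c => (f ⟨⟨p, hp⟩, c⟩).1 = k)).card else 0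
  refine ⟨m, ?_, ?_, ?_⟩
  · intro p k hm
    by_cases hp : p ∈ P
    · simp only [m, hp, dif_pos] at hm
      obtain ⟨c, hc⟩ := Finset.card_ne_zero.1 hm
      have hc' := (Finset.mem_filter.1 hc).2
      obtain ⟨a, b, c⟩ := hft' ⟨⟨p, hp⟩, c⟩
      rw [hc'] at a b
      exact ⟨hp, a, b⟩
    · simp [m, hp] at hm
  · intro p hp
    simp only [m, hp, dif_pos]
    rw [← Finset.card_eq_sum_card_fiberwise]
    · simp
    · intro c _
      simp [(hft' ⟨⟨p, hp⟩, c⟩).1]
  · intro k hk
    have h1 : ((Finset.univ : Finset I).filter (fun x => (f x).1 = k)).card = T := by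
      have : ((Finset.univ : Finset I).filter (fun x => (f x).1 = k)).image f =
          {k} ×ˢ range T := by
        ext ⟨a, b⟩
        constructor
        · intro h
          obtain ⟨x, hx, hx2⟩ := Finset.mem_image.1 h
          have hx' := (Finset.mem_filter.1 hx).2
          obtain ⟨h1, h2, h3⟩ := hft' x
          rw [hx2] at h3 hx'
          simp [h3]
          exact hx'.symm
        · intro h
          have h' : (a, b) ∈ range w ×ˢ range T := by
            rw [Finset.mem_product] at h ⊢
            rw [Finset.mem_singleton] at h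
            refine ⟨?_, h.2⟩
            rw [h.1]; simpa using hk
          rw [← himg] at h'
          obtain ⟨x, hx, hx2⟩ := Finset.mem_image.1 h'
          rw [← hx2]
          apply Finset.mem_image_of_mem
          rw [Finset.mem_filter]
          refine ⟨Finset.mem_univ _, ?_⟩
          rw [hx2]
          rw [Finset.mem_product, Finset.mem_singleton] at h
          exact h.1
      rw [← Finset.card_image_of_injective _ hfi, this]
      simp
    rw [← h1]
    rw [Finset.card_filter, Fintype.sum_sigma, ← Finset.sum_coe_sort P]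
    apply Finset.sum_congr rfl
    intro p _
    simp only [m, p.2, dif_pos, Finset.card_filter]

/-- From a coupling of the first two grids and the Hall condition to a coupling of all three. -/
theorem good_of_pair {ι : Type*} [DecidableEq ι] {u v w c : ℕ} (hu : 0 < u) (hv : 0 < v)
    (hw : 0 < w) (hc : 0 < c)
    (P : Finset ι) (a b n : ι → ℕ)
    (hP : ∀ p ∈ P, a p < u ∧ b p < v ∧ Dj (a p) u (b p) v)
    (hrow : ∀ i < u, ∑ p ∈ P with a p = i, n p = v * c)
    (hcol : ∀ j < v, ∑ p ∈ P with b p = j, n p = u * c)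
    (hall : ∀ S ⊆ P, S.Nonempty → w * (∑ p ∈ S, n p) +
      (u * v * c) * ((range w).filter
        (fun k => ∀ p ∈ S, ¬ (Dj (a p) u k w ∧ Dj (b p) v k w))).card ≤ (u * v * c) * w) :
    Good u v w := by
  classical
  have hT : ∑ p ∈ P, n p = u * v * c := by
    have h1 := Finset.sum_fiberwise_of_maps_to (s := P) (t := range u) (g := a)
      (fun p hp => Finset.mem_range.2 (hP p hp).1) n
    rw [← h1, Finset.sum_congr rfl (fun i hi => hrow i (Finset.mem_range.1 hi))]
    simp [mul_assoc]
  obtain ⟨m, hm0, hm1, hm2⟩ := transport P n w (u * v * c)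
    (fun p => (range w).filter (fun k => ¬ (Dj (a p) u k w ∧ Dj (b p) v k w))) hT (by
      intro S hS hSn
      refine le_trans ?_ (hall S hS hSn)
      gcongr with k hk q hq
      intro h
      exact (Finset.mem_filter.1 h).2)
  refine ⟨u * v * c * w, fun i j k => ∑ p ∈ P with (a p = i ∧ b p = j), m p k, by positivity,
    ?_, ?_, ?_, ?_⟩
  · intro i j k h
    obtain ⟨p, hp, hpk⟩ := Finset.exists_ne_zero_of_sum_ne_zero h
    rw [Finset.mem_filter] at hp
    obtain ⟨hpP, rfl, rfl⟩ := hp
    obtain ⟨_, hk, hB⟩ := hm0 p k hpk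
    simp only [Finset.mem_filter, Finset.mem_range, hk, true_and, not_not] at hB
    exact ⟨(hP p hpP).2.2, hB.1, hB.2⟩
  · intro i hi
    have : ∑ j ∈ range v, ∑ k ∈ range w, ∑ p ∈ P with (a p = i ∧ b p = j), m p k
        = ∑ p ∈ P with a p = i, ∑ k ∈ range w, m p k := by
      rw [← Finset.sum_fiberwise_of_maps_to (s := P.filter (fun p => a p = i)) (t := range v)
        (g := b) (fun p hp => Finset.mem_range.2 (hP p (Finset.mem_filter.1 hp).1).2.1)]
      apply Finset.sum_congr rfl
      intro j _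
      rw [Finset.sum_comm, Finset.filter_filter]
    rw [this, Finset.sum_congr rfl (fun p hp => hm1 p (Finset.mem_filter.1 hp).1),
      ← Finset.mul_sum, hrow i hi]
    ring
  · intro j hj
    have : ∑ i ∈ range u, ∑ k ∈ range w, ∑ p ∈ P with (a p = i ∧ b p = j), m p k
        = ∑ p ∈ P with b p = j, ∑ k ∈ range w, m p k := by
      rw [← Finset.sum_fiberwise_of_maps_to (s := P.filter (fun p => b p = j)) (t := range u)
        (g := a) (fun p hp => Finset.mem_range.2 (hP p (Finset.mem_filter.1 hp).1).1)]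
      apply Finset.sum_congr rfl
      intro i _
      rw [Finset.sum_comm, Finset.filter_filter]
      apply Finset.sum_congr _ (fun _ _ => rfl)
      ext p
      simp only [Finset.mem_filter]
      tauto
    rw [this, Finset.sum_congr rfl (fun p hp => hm1 p (Finset.mem_filter.1 hp).1),
      ← Finset.mul_sum, hcol j hj]
    ring
  · intro k hk
    have : ∑ i ∈ range u, ∑ j ∈ range v, ∑ p ∈ P with (a p = i ∧ b p = j), m p k
        = ∑ p ∈ P, m p k := by
      rw [← Finset.sum_fiberwise_of_maps_to (s := P) (t := range u)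
        (g := a) (fun p hp => Finset.mem_range.2 (hP p hp).1)]
      apply Finset.sum_congr rfl
      intro i _
      rw [← Finset.sum_fiberwise_of_maps_to (s := P.filter (fun p => a p = i)) (t := range v)
        (g := b) (fun p hp => Finset.mem_range.2 (hP p (Finset.mem_filter.1 hp).1).2.1)]
      apply Finset.sum_congr rfl
      intro j _
      rw [Finset.filter_filter]
    rw [this, hm2 k hk]
    ring

end Pool.Agent.KS6_49.TI
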