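import Pool.Agent.KS6_49.TI.Basic

namespace Pool.Agent.KS6_49.TI

open Finset

/-- A short cell meets at most two long cells. -/
lemma card_long_le {A B k : ℕ} (hA : 0 < A) (hAB : A ≤ B) (s : Finset ℕ) :
    (s.filter (fun i => ¬ Dj i A k B)).card ≤ 2 := by
  have hB : 0 < B := lt_of_lt_of_le hA hAB
  have : s.filter (fun i => ¬ Dj i A k B) ⊆ Finset.Icc (k * A / B) (k * A / B + 1) := by
    intro i hi
    have h := (Finset.mem_filter.1 hi).2
    unfold Dj at h
    push Not at h
    obtain ⟨h1, h2⟩ := h
    rw [Finset.mem_Icc]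
    constructor
    · have : k * A / B < i + 1 := Nat.div_lt_of_lt_mul (by linarith [mul_comm B (i+1)])
      omega
    · have h3 : k * A < (k * A / B + 1) * B := by
        have := Nat.lt_div_mul_add (a := k * A) hB
        nlinarith
      by_contra hcon
      push Not at hcon
      have h4 : (k * A / B + 2) * B ≤ i * B := Nat.mul_le_mul_right _ hcon
      nlinarith
  refine (Finset.card_le_card this).trans ?_
  rw [Nat.card_Icc]
  omega

/-- At most one cell of one grid meets two given distinct cells of another. -/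
lemma unique_meet {A B k k' i i' : ℕ} (hkk : k < k') (h1 : ¬ Dj i A k B) (h2 : ¬ Dj i A k' B)
    (h3 : ¬ Dj i' A k B) (h4 : ¬ Dj i' A k' B) : i = i' := by
  unfold Dj at *
  push Not at *
  by_contra hne
  rcases Nat.lt_or_gt_of_ne hne with h | h
  · -- i < i'
    have e1 : (i + 1) * B ≤ i' * B := Nat.mul_le_mul_right _ h
    have e2 : (k + 1) * A ≤ k' * A := Nat.mul_le_mul_right _ hkk
    have := h3.2
    have := h2.1
    linarith
  · have e1 : (i' + 1) * B ≤ i * B := Nat.mul_le_mul_right _ h
    have e2 : (k + 1) * A ≤ k' * A := Nat.mul_le_mul_right _ hkk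
    have := h1.2
    have := h4.1
    linarith

lemma card_meet_two {A B k k' : ℕ} (hkk : k ≠ k') (s : Finset ℕ) :
    (s.filter (fun i => ¬ Dj i A k B ∧ ¬ Dj i A k' B)).card ≤ 1 := by
  rw [Finset.card_le_one]
  intro i hi i' hi'
  have h := (Finset.mem_filter.1 hi).2
  have h' := (Finset.mem_filter.1 hi').2
  rcases Nat.lt_or_gt_of_ne hkk with hk | hk
  · exact unique_meet hk h.1 h.2 h'.1 h'.2
  · exact unique_meet hk h.2 h.1 h'.2 h'.1

/-- Number of cells of the grid of size `w` met by one cell of the grid of size `u`. -/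
lemma card_short_le {u w i : ℕ} (hu : 0 < u) :
    u * ((range w).filter (fun k => ¬ Dj i u k w)).card ≤ w + 2 * u - 2 := by
  have hsub : (range w).filter (fun k => ¬ Dj i u k w) ⊆
      Finset.Ico (i * w / u) (((i + 1) * w + u - 1) / u) := by
    intro k hk
    have h := (Finset.mem_filter.1 hk).2
    unfold Dj at h
    push Not at h
    obtain ⟨h1, h2⟩ := h
    rw [Finset.mem_Ico]
    constructor
    · have : i * w / u < k + 1 := Nat.div_lt_of_lt_mul (by linarith [mul_comm u (k+1)])
      omega
    · rw [Nat.lt_iff_add_one_le, Nat.le_div_iff_mul_le hu]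
      have : (k + 1) * u = k * u + u := by ring
      omega
  have h1 := Finset.card_le_card hsub
  rw [Nat.card_Ico] at h1
  have h2 : u * (((i + 1) * w + u - 1) / u) ≤ (i + 1) * w + u - 1 := Nat.mul_div_le _ _
  have h3 : i * w < u * (i * w / u) + u := by
    have := Nat.lt_div_mul_add (a := i * w) hu
    linarith [mul_comm u (i * w / u)]
  have h4 : u * ((range w).filter (fun k => ¬ Dj i u k w)).card ≤
      u * (((i + 1) * w + u - 1) / u) - u * (i * w / u) := by
    rw [← Nat.mul_sub]
    exact Nat.mul_le_mul_left _ h1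
  have h5 : (i + 1) * w = i * w + w := by ring
  omega

/-- Uniform coupling of two grids supported on disjoint pairs. -/
theorem pair_coupling {u v : ℕ} (hu : 3 ≤ u) (hv : 4 ≤ v) (huv : u ≤ v) :
    ∃ n : ℕ → ℕ → ℕ, (∀ i j, n i j ≠ 0 → i < u ∧ j < v ∧ Dj i u j v) ∧
      (∀ i < u, ∑ j ∈ range v, n i j = v) ∧ (∀ j < v, ∑ i ∈ range u, n i j = u) := by
  classical
  obtain ⟨m, hm0, hm1, hm2⟩ := transport (range u) (fun _ => 1) v u
    (fun i => (range v).filter (fun j => ¬ Dj i u j v)) (by simp) (by
      intro S hS hSn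
      simp only [Finset.sum_const, smul_eq_mul, mul_one]
      set A := (range v).filter (fun k => ∀ p ∈ S, k ∈ (range v).filter (fun j => ¬ Dj p u j v))
        with hA
      have hSc : S.card ≤ u := by simpa using Finset.card_le_card hS
      have hAB : ∀ i ∈ S, A ⊆ (range v).filter (fun j => ¬ Dj i u j v) := by
        intro i hi k hk
        exact (Finset.mem_filter.1 hk).2 i hi
      rcases Nat.lt_or_ge A.card 1 with h0 | h1
      · have : A.card = 0 := by omega
        rw [this]; nlinarith
      rcases Nat.lt_or_ge A.card 2 with h1' | h2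
      · -- exactly one blocked cell
        have hA1 : A.card = 1 := by omega
        obtain ⟨k, hk⟩ := Finset.card_pos.1 (by omega : 0 < A.card)
        have hS2 : S.card ≤ 2 := by
          have : S ⊆ (range u).filter (fun i => ¬ Dj i u k v) := by
            intro i hi
            rw [Finset.mem_filter]
            exact ⟨hS hi, (Finset.mem_filter.1 (hAB i hi hk)).2⟩
          exact (Finset.card_le_card this).trans (card_long_le (by omega) huv _)
        rw [hA1]
        have : (u - 2) * (v - 1) ≥ 1 * 3 := Nat.mul_le_mul (by omega) (by omega)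
        obtain ⟨a, rfl⟩ := Nat.exists_eq_add_of_le hu
        obtain ⟨b, rfl⟩ := Nat.exists_eq_add_of_le hv
        nlinarith
      · obtain ⟨k, hk, k', hk', hne⟩ := Finset.one_lt_card.1 h2
        have hS1 : S.card ≤ 1 := by
          have : S ⊆ (range u).filter (fun i => ¬ Dj i u k v ∧ ¬ Dj i u k' v) := by
            intro i hi
            rw [Finset.mem_filter]
            exact ⟨hS hi, (Finset.mem_filter.1 (hAB i hi hk)).2,
              (Finset.mem_filter.1 (hAB i hi hk')).2⟩
          exact (Finset.card_le_card this).trans (card_meet_two hne _)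
        obtain ⟨i, hi⟩ := hSn
        have h3 : u * A.card ≤ v + 2 * u - 2 :=
          (Nat.mul_le_mul_left _ (Finset.card_le_card (hAB i hi))).trans
            (card_short_le (by omega))
        obtain ⟨a, rfl⟩ := Nat.exists_eq_add_of_le hu
        obtain ⟨b, rfl⟩ := Nat.exists_eq_add_of_le hv
        have h4 : (3 + a) * #A ≤ 4 + b + 2 * (3 + a) := by omega
        have h5 : (3 + a) * #A + 2 ≤ 4 + b + 2 * (3 + a) := by omega
        nlinarith)
  refine ⟨m, ?_, ?_, ?_⟩
  · intro i j h
    obtain ⟨a, b, c⟩ := hm0 i j h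
    simp only [Finset.mem_filter, Finset.mem_range, b, true_and, not_not] at c
    exact ⟨Finset.mem_range.1 a, b, c⟩
  · intro i hi
    rw [hm1 i (Finset.mem_range.2 hi)]
    simp
  · intro j hj
    exact hm2 j hj

/-- The crude criterion. -/
theorem crude {u v w : ℕ} (hu : 3 ≤ u) (hv : 4 ≤ v) (huv : u ≤ v) (hvw : v ≤ w)
    (E1 : 2 * w * v + 2 * w * u + u * v ≤ u * v * w)
    (E2 : 2 * w * v + 5 * w * u + 4 * u * v ≤ u * v * w + 2 * u + 2 * v ∨
      3 * w * v + 3 * w * u + 4 * u * v ≤ u * v * w + 2 * u + 2 * v) : Good u v w := by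
  classical
  obtain ⟨n, hn0, hn1, hn2⟩ := pair_coupling hu hv huv
  have hrow : ∀ i < u, ∑ p ∈ (range u ×ˢ range v) with p.1 = i, n p.1 p.2 = v := by
    intro i hi
    have : (range u ×ˢ range v).filter (fun p : ℕ × ℕ => p.1 = i) = {i} ×ˢ range v := by
      ext ⟨x, y⟩
      simp only [Finset.mem_filter, Finset.mem_product, Finset.mem_range, Finset.mem_singleton]
      constructor
      · rintro ⟨⟨_, b⟩, rfl⟩; exact ⟨rfl, b⟩
      · rintro ⟨rfl, b⟩; exact ⟨⟨hi, b⟩, rfl⟩
    rw [this, Finset.sum_product, Finset.sum_singleton, hn1 i hi]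
  have hcol : ∀ j < v, ∑ p ∈ (range u ×ˢ range v) with p.2 = j, n p.1 p.2 = u := by
    intro j hj
    have : (range u ×ˢ range v).filter (fun p : ℕ × ℕ => p.2 = j) = range u ×ˢ {j} := by
      ext ⟨x, y⟩
      simp only [Finset.mem_filter, Finset.mem_product, Finset.mem_range, Finset.mem_singleton]
      constructor
      · rintro ⟨⟨a, _⟩, rfl⟩; exact ⟨a, rfl⟩
      · rintro ⟨a, rfl⟩; exact ⟨⟨a, hj⟩, rfl⟩
    rw [this, Finset.sum_product]
    simp [hn2 j hj]
  have hrow' : ∀ (i : ℕ) (S : Finset (ℕ × ℕ)), S ⊆ range u ×ˢ range v →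
      ∑ p ∈ S with p.1 = i, n p.1 p.2 ≤ v := by
    intro i S hS
    rcases Nat.lt_or_ge i u with hi | hi
    · rw [← hrow i hi]
      exact Finset.sum_le_sum_of_subset (Finset.filter_subset_filter _ hS)
    · rw [Finset.sum_eq_zero]
      · omega
      · intro p hp
        have := hS (Finset.mem_filter.1 hp).1
        rw [Finset.mem_product, Finset.mem_range] at this
        have h2 := (Finset.mem_filter.1 hp).2
        omega
  have hcol' : ∀ (j : ℕ) (S : Finset (ℕ × ℕ)), S ⊆ range u ×ˢ range v →
      ∑ p ∈ S with p.2 = j, n p.1 p.2 ≤ u := by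
    intro j S hS
    rcases Nat.lt_or_ge j v with hi | hi
    · rw [← hcol j hi]
      exact Finset.sum_le_sum_of_subset (Finset.filter_subset_filter _ hS)
    · rw [Finset.sum_eq_zero]
      · omega
      · intro p hp
        have := hS (Finset.mem_filter.1 hp).1
        rw [Finset.mem_product, Finset.mem_range, Finset.mem_range] at this
        have h2 := (Finset.mem_filter.1 hp).2
        omega
  -- the weight of the pairs whose first cell lies in a set of indices
  have hA : ∀ (I : Finset ℕ) (S : Finset (ℕ × ℕ)), S ⊆ range u ×ˢ range v →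
      ∑ p ∈ S with p.1 ∈ I, n p.1 p.2 ≤ I.card * v := by
    intro I S hS
    rw [← Finset.sum_fiberwise_of_maps_to (s := S.filter (fun p => p.1 ∈ I)) (t := I)
      (g := fun p => p.1) (fun p hp => (Finset.mem_filter.1 hp).2)]
    refine (Finset.sum_le_card_nsmul _ _ v ?_).trans_eq (by simp)
    intro i _
    exact hrow' i _ ((Finset.filter_subset _ _).trans hS)
  have hB : ∀ (J : Finset ℕ) (S : Finset (ℕ × ℕ)), S ⊆ range u ×ˢ range v →
      ∑ p ∈ S with p.2 ∈ J, n p.1 p.2 ≤ J.card * u := by
    intro J S hS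
    rw [← Finset.sum_fiberwise_of_maps_to (s := S.filter (fun p => p.2 ∈ J)) (t := J)
      (g := fun p => p.2) (fun p hp => (Finset.mem_filter.1 hp).2)]
    refine (Finset.sum_le_card_nsmul _ _ u ?_).trans_eq (by simp)
    intro i _
    exact hcol' i _ ((Finset.filter_subset _ _).trans hS)
  -- covering a set of pairs by two such sets
  have hAB : ∀ (I J : Finset ℕ) (S : Finset (ℕ × ℕ)), S ⊆ range u ×ˢ range v →
      (∀ p ∈ S, p.1 ∈ I ∨ p.2 ∈ J) → ∑ p ∈ S, n p.1 p.2 ≤ I.card * v + J.card * u := by
    intro I J S hS h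
    refine le_trans ?_ (Nat.add_le_add (hA I S hS) (hB J S hS))
    rw [← Finset.sum_filter_add_sum_filter_not S (fun p => p.1 ∈ I)]
    refine Nat.add_le_add_left (Finset.sum_le_sum_of_subset ?_) _
    intro p hp
    rw [Finset.mem_filter] at hp ⊢
    exact ⟨hp.1, (h p hp.1).resolve_left hp.2⟩
  have hfilt : ∀ (q : ℕ × ℕ → Prop) [DecidablePred q],
      ∑ p ∈ ((range u ×ˢ range v).filter (fun p => n p.1 p.2 ≠ 0)) with q p, n p.1 p.2 =
      ∑ p ∈ (range u ×ˢ range v) with q p, n p.1 p.2 := by
    intro q _
    rw [Finset.filter_filter]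
    apply Finset.sum_subset
    · intro p hp
      rw [Finset.mem_filter] at hp ⊢
      exact ⟨hp.1, hp.2.2⟩
    · intro p hp hp'
      rw [Finset.mem_filter] at hp hp'
      by_contra h
      exact hp' ⟨hp.1, h, hp.2⟩
  refine good_of_pair (c := 1) (by omega) (by omega) (by omega) one_pos
    ((range u ×ˢ range v).filter (fun p => n p.1 p.2 ≠ 0))
    (fun p => p.1) (fun p => p.2) (fun p => n p.1 p.2) ?_ ?_ ?_ ?_
  · intro p hp
    exact hn0 _ _ (Finset.mem_filter.1 hp).2
  · intro i hi
    rw [mul_one, hfilt, hrow i hi]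
  · intro j hj
    rw [mul_one, hfilt, hcol j hj]
  · intro S hS' hSn
    have hS : S ⊆ range u ×ˢ range v := hS'.trans (Finset.filter_subset _ _)
    set A := (range w).filter (fun k => ∀ p ∈ S, ¬ (Dj p.1 u k w ∧ Dj p.2 v k w)) with hAdef
    rw [mul_one]
    have hSall : ∑ p ∈ S, n p.1 p.2 ≤ u * v := by
      have := hAB (range u) ∅ S hS (fun p hp => Or.inl (by
        have := hS hp
        rw [Finset.mem_product] at this
        exact this.1))
      simpa using this
    rcases Nat.lt_or_ge A.card 1 with h0 | h1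
    · have : A.card = 0 := by omega
      rw [this]; nlinarith
    -- one blocked cell
    obtain ⟨k, hk⟩ := Finset.card_pos.1 h1
    have hS22 : ∑ p ∈ S, n p.1 p.2 ≤ 2 * v + 2 * u := by
      refine (hAB ((range u).filter (fun i => ¬ Dj i u k w))
        ((range v).filter (fun j => ¬ Dj j v k w)) S hS ?_).trans ?_
      · intro p hp
        have h2 := hS hp
        rw [Finset.mem_product] at h2
        have h3 := (Finset.mem_filter.1 hk).2 p hp
        rw [Finset.mem_filter, Finset.mem_filter]
        by_cases h4 : Dj p.1 u k w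
        · exact Or.inr ⟨h2.2, fun h5 => h3 ⟨h4, h5⟩⟩
        · exact Or.inl ⟨h2.1, h4⟩
      · exact Nat.add_le_add (Nat.mul_le_mul_right _ (card_long_le (by omega) (by omega) _))
          (Nat.mul_le_mul_right _ (card_long_le (by omega) (by omega) _))
    rcases Nat.lt_or_ge A.card 2 with h1' | h2
    · have hA1 : A.card = 1 := by omega
      rw [hA1]
      have h := Nat.mul_le_mul_left w hS22
      linarith
    -- at least two blocked cells
    obtain ⟨k, hk, k', hk', hne⟩ := Finset.one_lt_card.1 h2
    have hS14 : ∑ p ∈ S, n p.1 p.2 ≤ v + 4 * u := by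
      refine (hAB ((range u).filter (fun i => ¬ Dj i u k w ∧ ¬ Dj i u k' w))
        (((range v).filter (fun j => ¬ Dj j v k w)) ∪ ((range v).filter (fun j => ¬ Dj j v k' w)))
        S hS ?_).trans ?_
      · intro p hp
        have h2 := hS hp
        rw [Finset.mem_product] at h2
        have h3 := (Finset.mem_filter.1 hk).2 p hp
        have h3' := (Finset.mem_filter.1 hk').2 p hp
        rw [Finset.mem_union, Finset.mem_filter, Finset.mem_filter, Finset.mem_filter]
        by_cases h5 : Dj p.2 v k w
        · by_cases h6 : Dj p.2 v k' w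
          · exact Or.inl ⟨h2.1, fun h => h3 ⟨h, h5⟩, fun h => h3' ⟨h, h6⟩⟩
          · exact Or.inr (Or.inr ⟨h2.2, h6⟩)
        · exact Or.inr (Or.inl ⟨h2.2, h5⟩)
      · have c1 : (((range v).filter (fun j => ¬ Dj j v k w)) ∪
            ((range v).filter (fun j => ¬ Dj j v k' w))).card ≤ 4 :=
          (Finset.card_union_le _ _).trans (Nat.add_le_add (card_long_le (by omega) (by omega) _)
            (card_long_le (by omega) (by omega) _))
        have c2 := card_meet_two (A := u) (B := w) hne (range u)
        have c3 := Nat.mul_le_mul_right u c1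
        have c4 := Nat.mul_le_mul_right v c2
        linarith
    -- size of the blocked set
    have hAc : u * v * A.card ≤ v * (w + 2 * u - 2) + u * (w + 2 * v - 2) := by
      obtain ⟨p, hp⟩ := hSn
      have hsub : A ⊆ ((range w).filter (fun k => ¬ Dj p.1 u k w)) ∪
          ((range w).filter (fun k => ¬ Dj p.2 v k w)) := by
        intro k hk
        rw [hAdef, Finset.mem_filter] at hk
        rw [Finset.mem_union, Finset.mem_filter, Finset.mem_filter]
        have h3 := hk.2 p hp
        by_cases h4 : Dj p.1 u k w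
        · exact Or.inr ⟨hk.1, fun h5 => h3 ⟨h4, h5⟩⟩
        · exact Or.inl ⟨hk.1, h4⟩
      have c1 := (Finset.card_le_card hsub).trans (Finset.card_union_le _ _)
      have c2 := card_short_le (u := u) (w := w) (i := p.1) (by omega)
      have c3 := card_short_le (u := v) (w := w) (i := p.2) (by omega)
      calc u * v * A.card ≤ u * v * (((range w).filter (fun k => ¬ Dj p.1 u k w)).card +
            ((range w).filter (fun k => ¬ Dj p.2 v k w)).card) := Nat.mul_le_mul_left _ c1
        _ = v * (u * ((range w).filter (fun k => ¬ Dj p.1 u k w)).card) +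
            u * (v * ((range w).filter (fun k => ¬ Dj p.2 v k w)).card) := by ring
        _ ≤ _ := Nat.add_le_add (Nat.mul_le_mul_left _ c2) (Nat.mul_le_mul_left _ c3)
    have hAc' : u * v * A.card + 2 * u + 2 * v ≤ v * w + u * w + 4 * (u * v) := by
      have e1 : v * (w + 2 * u - 2) + 2 * v = v * (w + 2 * u) := by
        rw [show w + 2 * u = (w + 2 * u - 2) + 2 by omega, mul_add]
        simp [mul_comm]
      have e2 : u * (w + 2 * v - 2) + 2 * u = u * (w + 2 * v) := by
        rw [show w + 2 * v = (w + 2 * v - 2) + 2 by omega, mul_add]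
        simp [mul_comm]
      linarith
    rcases E2 with E | E
    · have h := Nat.mul_le_mul_left w hS14
      linarith
    · have h := Nat.mul_le_mul_left w hS22
      linarith

end Pool.Agent.KS6_49.TI
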