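import Pool.Agent.KS6_49.TI.FamData
import Pool.Agent.KS6_49.TI.Crude

/-!
All non-exceptional triples of grids have a uniform coupling supported on disjoint triples.
-/

namespace Pool.Agent.KS6_49.TI

open Finset

/-- The exceptional triples (among sorted triples). -/
def excB (u v w : ℕ) : Bool :=
  (Nat.beq u 3 && Nat.beq v 3 && !(Nat.beq (w % 3) 0)) ||
  (Nat.beq u 3 && Nat.beq v 4 && [4, 5, 7, 8, 10, 11, 13, 17].any (fun x => Nat.beq w x)) ||
  (Nat.beq u 3 && Nat.beq v 5 && [5, 7].any (fun x => Nat.beq w x))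

/-- The crude criterion as a Boolean. -/
def crudeB (u v w : ℕ) : Bool :=
  Nat.ble 3 u && Nat.ble 4 v && Nat.ble (2 * w * v + 2 * w * u + u * v) (u * v * w) &&
  (Nat.ble (2 * w * v + 5 * w * u + 4 * u * v) (u * v * w + 2 * u + 2 * v) ||
   Nat.ble (3 * w * v + 3 * w * u + 4 * u * v) (u * v * w + 2 * u + 2 * v))

/-- Divisibility test. -/
def dvb (a b : ℕ) : Bool := Nat.beq (b % a) 0

lemma dvb_dvd {a b : ℕ} (h : dvb a b = true) : a ∣ b := by
  simp only [dvb, Nat.beq_eq] at h
  exact Nat.dvd_of_mod_eq_zero h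

/-- A family member dividing the triple, in the given order. -/
def famT (x y z : ℕ) : Bool :=
  fams.any (fun f => dvb f.1.1 x && dvb f.1.2.1 y && Nat.ble f.1.2.2.2.2.2 z)

/-- A certificate dividing the triple, in the given order. -/
def keyT (x y z : ℕ) : Bool :=
  certs.any (fun c => dvb c.1.1 x && dvb c.1.2.1 y && dvb c.1.2.2.1 z)

/-- All orders. -/
def perms (f : ℕ → ℕ → ℕ → Bool) (x y z : ℕ) : Bool :=
  f x y z || f y x z || f x z y || f z x y || f y z x || f z y x

lemma crudeB_good {u v w : ℕ} (huv : u ≤ v) (hvw : v ≤ w) (h : crudeB u v w = true) :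
    Good u v w := by
  simp only [crudeB, Bool.and_eq_true, Bool.or_eq_true, Nat.ble_eq] at h
  exact crude h.1.1.1 h.1.1.2 huv hvw h.1.2 h.2

lemma crudeB_mono {u v w w' : ℕ} (hw0 : 0 < w) (hww : w ≤ w') (h : crudeB u v w = true) :
    crudeB u v w' = true := by
  simp only [crudeB, Bool.and_eq_true, Bool.or_eq_true, Nat.ble_eq] at h ⊢
  obtain ⟨⟨⟨h1, h2⟩, h3⟩, h4⟩ := h
  obtain ⟨d, rfl⟩ := Nat.exists_eq_add_of_le hww
  refine ⟨⟨⟨h1, h2⟩, ?_⟩, ?_⟩
  · have a1 : 2 * v + 2 * u ≤ u * v := by
      have : (2 * v + 2 * u) * w ≤ (u * v) * w := by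
        calc (2 * v + 2 * u) * w = 2 * w * v + 2 * w * u := by ring
          _ ≤ 2 * w * v + 2 * w * u + u * v := Nat.le_add_right _ _
          _ ≤ _ := h3
      exact Nat.le_of_mul_le_mul_right this hw0
    have a2 := Nat.mul_le_mul_left d a1
    calc 2 * (w + d) * v + 2 * (w + d) * u + u * v
        = (2 * w * v + 2 * w * u + u * v) + d * (2 * v + 2 * u) := by ring
      _ ≤ u * v * w + d * (u * v) := Nat.add_le_add h3 a2
      _ = _ := by ring
  · have key : ∀ p q : ℕ, p * w * v + q * w * u + 4 * u * v ≤ u * v * w + 2 * u + 2 * v →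
        p * (w + d) * v + q * (w + d) * u + 4 * u * v ≤ u * v * (w + d) + 2 * u + 2 * v := by
      intro p q hpq
      have a0 : 2 * u + 2 * v ≤ 4 * u * v := by
        have b1 : u ≤ u * v := Nat.le_mul_of_pos_right u (by omega)
        have b2 : v ≤ u * v := Nat.le_mul_of_pos_left v (by omega)
        have b3 : 4 * u * v = 4 * (u * v) := by ring
        omega
      have a1 : p * v + q * u ≤ u * v := by
        have : (p * v + q * u) * w ≤ (u * v) * w := by
          have e : (p * v + q * u) * w = p * w * v + q * w * u := by ring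
          omega
        exact Nat.le_of_mul_le_mul_right this hw0
      have a2 := Nat.mul_le_mul_left d a1
      have e1 : p * (w + d) * v + q * (w + d) * u + 4 * u * v =
        (p * w * v + q * w * u + 4 * u * v) + d * (p * v + q * u) := by ring
      have e2 : u * v * (w + d) + 2 * u + 2 * v = (u * v * w + 2 * u + 2 * v) + d * (u * v) := by
        ring
      rw [e1, e2]
      exact Nat.add_le_add hpq a2
    rcases h4 with h4 | h4
    · exact Or.inl (key 2 5 h4)
    · exact Or.inr (key 3 3 h4)

lemma famT_good {x y z : ℕ} (hx : 0 < x) (hy : 0 < y) (h : famT x y z = true) : Good x y z := by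
  simp only [famT, List.any_eq_true, Bool.and_eq_true, Nat.ble_eq] at h
  obtain ⟨f, hf, ⟨h1, h2⟩, h3⟩ := h
  exact ((good_of_fams hf h3).dvd1 (dvb_dvd h1) hx).dvd2 (dvb_dvd h2) hy

lemma keyT_good {x y z : ℕ} (hx : 0 < x) (hy : 0 < y) (hz : 0 < z) (h : keyT x y z = true) :
    Good x y z := by
  simp only [keyT, List.any_eq_true, Bool.and_eq_true] at h
  obtain ⟨c, hc, ⟨h1, h2⟩, h3⟩ := h
  exact (((good_of_mem hc).dvd1 (dvb_dvd h1) hx).dvd2 (dvb_dvd h2) hy).dvd3 (dvb_dvd h3) hz

lemma perms_good {f : ℕ → ℕ → ℕ → Bool} {x y z : ℕ} (hx : 0 < x) (hy : 0 < y) (hz : 0 < z)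
    (hf : ∀ x y z, 0 < x → 0 < y → 0 < z → f x y z = true → Good x y z)
    (h : perms f x y z = true) : Good x y z := by
  simp only [perms, Bool.or_eq_true] at h
  rcases h with ((((h | h) | h) | h) | h) | h
  · exact hf _ _ _ hx hy hz h
  · exact (hf _ _ _ hy hx hz h).swap12
  · exact (hf _ _ _ hx hz hy h).swap23
  · exact ((hf _ _ _ hz hx hy h).swap12).swap23
  · exact ((hf _ _ _ hy hz hx h).swap23).swap12
  · exact (((hf _ _ _ hz hy hx h).swap12).swap23).swap12

/-- The finite check. -/
def finCheck : Bool :=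
  (List.range 7).all (fun a => (List.range (24 - a)).all (fun b => (List.range (197 - a - b)).all
    (fun c => excB (3 + a) (3 + a + b) (3 + a + b + c) || crudeB (3 + a) (3 + a + b) (3 + a + b + c)
      || perms famT (3 + a) (3 + a + b) (3 + a + b + c)
      || perms keyT (3 + a) (3 + a + b) (3 + a + b + c))))

theorem finCheck_ok : finCheck = true := by decide +kernel

/-- The check for `w = 200`, from which all larger `w` follow. -/
def infCheck : Bool :=
  (List.range 7).all (fun a => (List.range (24 - a)).all (fun b =>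
    (Nat.beq a 0 && Nat.beq b 0) || crudeB (3 + a) (3 + a + b) 200
      || famT (3 + a) (3 + a + b) 200 || famT (3 + a + b) (3 + a) 200))

theorem infCheck_ok : infCheck = true := by decide +kernel

lemma famT_mono {x y z z' : ℕ} (hz : z ≤ z') (h : famT x y z = true) : famT x y z' = true := by
  simp only [famT, List.any_eq_true, Bool.and_eq_true, Nat.ble_eq] at h ⊢
  obtain ⟨f, hf, h1, h3⟩ := h
  exact ⟨f, hf, h1, h3.trans hz⟩

theorem key333 : certs.any (fun c => Nat.beq c.1.1 3 && Nat.beq c.1.2.1 3 &&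
    Nat.beq c.1.2.2.1 3) = true := by decide +kernel

theorem good333 : Good 3 3 3 := by
  have h := key333
  simp only [List.any_eq_true, Bool.and_eq_true, Nat.beq_eq] at h
  obtain ⟨c, hc, ⟨h1, h2⟩, h3⟩ := h
  have := good_of_mem hc
  rwa [h1, h2, h3] at this

theorem good_all {u v w : ℕ} (hu : 3 ≤ u) (huv : u ≤ v) (hvw : v ≤ w)
    (hex : excB u v w = false) : Good u v w := by
  by_cases hsm : u ≤ 9 ∧ v ≤ 26
  · obtain ⟨hu9, hv26⟩ := hsm
    obtain ⟨a, rfl⟩ := Nat.exists_eq_add_of_le hu
    obtain ⟨b, rfl⟩ := Nat.exists_eq_add_of_le huv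
    rcases Nat.lt_or_ge w 200 with hw | hw
    · obtain ⟨c, rfl⟩ := Nat.exists_eq_add_of_le hvw
      have h := finCheck_ok
      simp only [finCheck, List.all_eq_true, List.mem_range] at h
      have h1 := h a (by omega) b (by omega) c (by omega)
      simp only [hex, Bool.false_or, Bool.or_eq_true] at h1
      rcases h1 with (h1 | h1) | h1
      · exact crudeB_good huv hvw h1
      · exact perms_good (by omega) (by omega) (by omega)
          (fun x y z hx hy _ h => famT_good hx hy h) h1
      · exact perms_good (by omega) (by omega) (by omega)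
          (fun x y z hx hy hz h => keyT_good hx hy hz h) h1
    · have h := infCheck_ok
      simp only [infCheck, List.all_eq_true, List.mem_range] at h
      have h1 := h a (by omega) b (by omega)
      simp only [Bool.or_eq_true, Bool.and_eq_true, Nat.beq_eq] at h1
      rcases h1 with ((⟨rfl, rfl⟩ | h1) | h1) | h1
      · have h3 : 3 ∣ w := by
          by_contra hcon
          have : w % 3 ≠ 0 := fun h => hcon (Nat.dvd_of_mod_eq_zero h)
          have : Nat.beq (w % 3) 0 = false := by
            rw [Bool.eq_false_iff]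
            intro hh
            exact this (Nat.eq_of_beq_eq_true hh)
          simp [excB, this] at hex
        exact good333.dvd3 h3 (by omega)
      · exact crudeB_good huv hvw (crudeB_mono (by omega) hw h1)
      · exact famT_good (by omega) (by omega) (famT_mono hw h1)
      · exact (famT_good (by omega) (by omega) (famT_mono hw h1)).swap12
  · -- large grids
    have hbig : 10 ≤ u ∨ (u ≤ 9 ∧ 27 ≤ v) := by omega
    have hv4 : 4 ≤ v := by omega
    rcases hbig with h10 | ⟨hu9, hv27⟩
    · have e1 : 10 * v ≤ u * v := Nat.mul_le_mul_right _ h10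
      have e2 : 10 * w ≤ u * w := Nat.mul_le_mul_right _ h10
      have e3 : u * v ≤ v * v := Nat.mul_le_mul_right _ huv
      have e4 : u * w ≤ v * w := Nat.mul_le_mul_right _ huv
      have e5 : v * v ≤ v * w := Nat.mul_le_mul_left _ hvw
      have e6 : 10 * (v * w) ≤ u * (v * w) := Nat.mul_le_mul_right _ h10
      have e7 : u * (v * w) = u * v * w := by ring
      refine crude hu hv4 huv hvw ?_ (Or.inr ?_)
      · nlinarith
      · nlinarith
    · have e1 : 27 * w ≤ v * w := Nat.mul_le_mul_right _ hv27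
      have e5 : v * v ≤ v * w := Nat.mul_le_mul_left _ hvw
      have e8 : 27 * v ≤ v * v := Nat.mul_le_mul_right _ hv27
      refine crude hu hv4 huv hvw ?_ (Or.inl ?_)
      · interval_cases u <;> nlinarith
      · interval_cases u <;> nlinarith

end Pool.Agent.KS6_49.TI
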