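import Pool.Agent.KS6_49.TI.Family

namespace Pool.Agent.KS6_49.TI

/-- The twelve families: first two grid sizes, unit multipliers, scale, threshold, coupling. -/
def fams : List ((ℕ × ℕ × ℕ × ℕ × ℕ × ℕ) × List (ℕ × ℕ × ℕ)) := [
  ((3, 4, 4, 3, 1, 48), [(0, 2, 3), (2, 1, 3), (1, 0, 2), (1, 3, 2), (0, 3, 1), (2, 0, 1)]),
  ((3, 5, 5, 3, 1, 34), [(0, 3, 3), (1, 4, 3), (2, 1, 3), (0, 2, 2), (1, 0, 2), (2, 0, 1),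
    (2, 2, 1)]),
  ((3, 6, 2, 1, 2, 10), [(0, 2, 6), (2, 3, 6), (0, 5, 3), (2, 0, 3), (1, 0, 3), (1, 5, 3),
    (1, 4, 3), (1, 1, 3), (2, 1, 3), (0, 4, 3)]),
  ((3, 7, 7, 3, 1, 29), [(0, 4, 3), (0, 5, 3), (1, 0, 3), (1, 6, 3), (2, 2, 3), (2, 1, 2),
    (2, 3, 2), (0, 3, 1), (1, 1, 1)]),
  ((3, 9, 3, 1, 1, 12), [(0, 3, 3), (0, 4, 3), (0, 7, 3), (1, 0, 3), (1, 6, 3), (1, 8, 3),
    (2, 1, 3), (2, 2, 3), (2, 5, 3)]),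
  ((3, 11, 11, 3, 1, 36), [(0, 4, 3), (0, 5, 3), (0, 7, 3), (1, 1, 3), (1, 8, 3), (1, 9, 3),
    (2, 0, 3), (2, 3, 3), (2, 6, 3), (0, 10, 2), (2, 2, 2), (1, 2, 1), (1, 10, 1)]),
  ((3, 13, 13, 3, 1, 42), [(0, 5, 3), (0, 6, 3), (0, 8, 3), (0, 12, 3), (1, 1, 3), (1, 9, 3),
    (1, 10, 3), (1, 11, 3), (2, 0, 3), (2, 2, 3), (2, 4, 3), (2, 3, 2), (2, 7, 2), (0, 7, 1),
    (1, 3, 1)]),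
  ((4, 4, 1, 1, 1, 8), [(0, 1, 4), (1, 2, 2), (2, 3, 2), (3, 0, 2), (1, 3, 2), (2, 0, 2),
    (3, 2, 2)]),
  ((4, 5, 5, 4, 3, 24), [(1, 0, 8), (3, 1, 8), (0, 3, 7), (2, 4, 7), (3, 2, 7), (0, 2, 5),
    (1, 3, 5), (2, 1, 4), (2, 0, 4), (0, 4, 3), (1, 4, 2)]),
  ((4, 7, 7, 4, 1, 28), [(0, 2, 4), (1, 5, 4), (2, 6, 4), (3, 4, 4), (0, 3, 3), (1, 0, 3),
    (2, 1, 3), (3, 0, 1), (3, 1, 1), (3, 3, 1)]),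
  ((5, 5, 1, 1, 2, 6), [(0, 1, 10), (4, 3, 10), (1, 4, 5), (3, 0, 5), (2, 0, 5), (2, 4, 5),
    (3, 2, 5), (1, 2, 5)]),
  ((5, 7, 7, 5, 1, 35), [(0, 2, 5), (1, 5, 5), (2, 1, 5), (3, 3, 5), (4, 0, 4), (4, 4, 3),
    (0, 6, 2), (1, 4, 2), (2, 6, 2), (3, 0, 1), (3, 6, 1)])]

theorem fams_ok : fams.all (fun f =>
    famOK f.1.1 f.1.2.1 f.1.2.2.1 f.1.2.2.2.1 f.1.2.2.2.2.1 f.1.2.2.2.2.2 f.2) = true := by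
  decide +kernel

theorem good_of_fams {f : (ℕ × ℕ × ℕ × ℕ × ℕ × ℕ) × List (ℕ × ℕ × ℕ)} (hf : f ∈ fams)
    {w : ℕ} (hw : f.1.2.2.2.2.2 ≤ w) : Good f.1.1 f.1.2.1 w :=
  good_of_fam (List.all_eq_true.1 fams_ok f hf) hw

end Pool.Agent.KS6_49.TI
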