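import Pool.Agent.KS6_49.TI.Certs

/-!
Couplings for twelve pairs of small grids with every sufficiently fine third grid.
-/

namespace Pool.Agent.KS6_49.TI

open Finset

/-- Counting cells of a fine grid blocked by unions of units of a coarse grid. -/
lemma blocked_count {N w : ℕ} (hN : 0 < N) (hNw : N ≤ w) (Bl I C : Finset ℕ)
    (h1 : ∀ k ∈ Bl, ∀ s, s * w ≤ k * N → (k + 1) * N ≤ (s + 1) * w → s ∈ I)
    (h2 : ∀ k ∈ Bl, ∀ s, s * w ≤ k * N → k * N < (s + 1) * w → (s + 1) * w < (k + 1) * N →
      s ∈ C) :
    N * Bl.card ≤ w * I.card + N * C.card := by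
  classical
  have hw : 0 < w := lt_of_lt_of_le hN hNw
  have e1 : ∀ k, k * N / w * w ≤ k * N := fun k => Nat.div_mul_le_self _ _
  have e2 : ∀ k, k * N < (k * N / w + 1) * w := fun k => by
    have := Nat.lt_div_mul_add (a := k * N) hw
    linarith [add_mul (k * N / w) 1 w]
  rw [← Finset.card_filter_add_card_filter_not (s := Bl)
    (fun k => (k + 1) * N ≤ (k * N / w + 1) * w), mul_add]
  apply Nat.add_le_add
  · rw [Finset.card_eq_sum_card_fiberwise (f := fun k => k * N / w) (t := I)
      (s := Bl.filter (fun k => (k + 1) * N ≤ (k * N / w + 1) * w))]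
    · rw [Finset.mul_sum]
      refine (Finset.sum_le_card_nsmul _ _ w ?_).trans_eq (by simp [mul_comm])
      intro s _
      have hsub : (Bl.filter (fun k => (k + 1) * N ≤ (k * N / w + 1) * w)).filter
          (fun k => k * N / w = s) ⊆ Finset.Ico ((s * w + N - 1) / N) ((s + 1) * w / N) := by
        intro k hk
        rw [Finset.mem_filter, Finset.mem_filter] at hk
        obtain ⟨⟨_, hk1⟩, rfl⟩ := hk
        rw [Finset.mem_Ico]
        constructor
        · have h3 := e1 k
          rw [← Nat.lt_succ_iff, Nat.div_lt_iff_lt_mul hN]
          have : k.succ * N = k * N + N := by rw [Nat.succ_mul]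
          omega
        · rw [Nat.lt_iff_add_one_le, Nat.le_div_iff_mul_le hN]
          exact hk1
      have h3 := Finset.card_le_card hsub
      rw [Nat.card_Ico] at h3
      have h4 : N * ((s + 1) * w / N) ≤ (s + 1) * w := Nat.mul_div_le _ _
      have h5 : s * w ≤ N * ((s * w + N - 1) / N) := by
        have := Nat.lt_div_mul_add (a := s * w + N - 1) hN
        have h6 := mul_comm N ((s * w + N - 1) / N)
        omega
      calc _ ≤ N * ((s + 1) * w / N - (s * w + N - 1) / N) := Nat.mul_le_mul_left _ h3
        _ = N * ((s + 1) * w / N) - N * ((s * w + N - 1) / N) := Nat.mul_sub _ _ _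
        _ ≤ w := by
          have : (s + 1) * w = s * w + w := by ring
          omega
    · intro k hk
      have hk := Finset.mem_filter.1 (Finset.mem_coe.1 hk)
      exact Finset.mem_coe.2 (h1 k hk.1 _ (e1 k) hk.2)
  · refine Nat.mul_le_mul_left _ ?_
    refine Finset.card_le_card_of_injOn (fun k => k * N / w) ?_ ?_
    · intro k hk
      have hk := Finset.mem_filter.1 (Finset.mem_coe.1 hk)
      exact Finset.mem_coe.2 (h2 k hk.1 _ (e1 k) (e2 k) (not_le.1 hk.2))
    · intro k hk k' hk' heq
      have hk := Finset.mem_filter.1 (Finset.mem_coe.1 hk)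
      have hk' := Finset.mem_filter.1 (Finset.mem_coe.1 hk')
      have a1 := hk.2
      have a2 := hk'.2
      have b1 := e2 k
      have b2 := e2 k'
      dsimp only at heq
      rw [← heq] at a2 b2
      by_contra hne
      rcases Nat.lt_or_gt_of_ne hne with h | h
      · have : (k + 1) * N ≤ k' * N := Nat.mul_le_mul_right _ h
        omega
      · have : (k' + 1) * N ≤ k * N := Nat.mul_le_mul_right _ h
        omega

/-- The pair `(i, j)` covers the unit `s`. -/
def cov (a b : ℕ) (e : ℕ × ℕ × ℕ) (s : ℕ) : Bool :=
  (Nat.ble (e.1 * a) s && Nat.blt s ((e.1 + 1) * a)) ||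
  (Nat.ble (e.2.1 * b) s && Nat.blt s ((e.2.1 + 1) * b))

/-- The subset recursion. -/
def chk (a b T N W : ℕ) : List (ℕ × ℕ × ℕ) → List ℕ → List ℕ → ℕ → Bool
  | [], I, C, X => Nat.beq X 0 ||
      Nat.ble (T * W * I.length + T * N * C.length + N * W * X) (T * N * W)
  | e :: l, I, C, X => (I.isEmpty && C.isEmpty) ||
      (chk a b T N W l I C X &&
        chk a b T N W l (I.filter (cov a b e)) (C.filter (fun s => cov a b e s || cov a b e (s + 1)))
          (X + e.2.2))

lemma chk_sound (a b T N W : ℕ) (l : List (ℕ × ℕ × ℕ)) : ∀ (I C : List ℕ) (X : ℕ),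
    chk a b T N W l I C X = true → ∀ l' : List (ℕ × ℕ × ℕ), l'.Sublist l →
      ((I.filter (fun s => l'.all (fun e => cov a b e s))) = [] ∧
        (C.filter (fun s => l'.all (fun e => cov a b e s || cov a b e (s + 1)))) = []) ∨
      X + (l'.map (fun e => e.2.2)).sum = 0 ∨
      T * W * (I.filter (fun s => l'.all (fun e => cov a b e s))).length +
        T * N * (C.filter (fun s => l'.all (fun e => cov a b e s || cov a b e (s + 1)))).length +
        N * W * (X + (l'.map (fun e => e.2.2)).sum) ≤ T * N * W := by
  induction l with
  | nil =>
    intro I C X h l' hl'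
    obtain rfl := List.sublist_nil.1 hl'
    simp only [chk, Bool.or_eq_true, Nat.beq_eq, Nat.ble_eq] at h
    right
    simpa using h
  | cons e l ih =>
    intro I C X h l' hl'
    simp only [chk, Bool.or_eq_true, Bool.and_eq_true, List.isEmpty_iff] at h
    rcases h with ⟨rfl, rfl⟩ | ⟨ha, hb⟩
    · left; simp
    · cases hl' with
      | cons _ h' => exact ih I C X ha l' h'
      | @cons_cons l'' _ _ h' =>
        have := ih _ _ _ hb l'' h'
        simp only [List.filter_filter] at this
        simp only [List.all_cons, List.map_cons, List.sum_cons]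
        rw [← add_assoc]
        simpa only [Bool.and_comm] using this

/-- The family checker. -/
def famOK (u v a b c W : ℕ) (L : List (ℕ × ℕ × ℕ)) : Bool :=
  Nat.blt 0 u && Nat.blt 0 v && Nat.blt 0 a && Nat.blt 0 b && Nat.blt 0 c &&
  Nat.beq (u * a) (v * b) && Nat.ble (u * a) W &&
  decide L.Nodup &&
  L.all (fun e => Nat.blt e.1 u && Nat.blt e.2.1 v && djb e.1 u e.2.1 v && Nat.blt 0 e.2.2) &&
  (List.range u).all (fun i => Nat.beq ((L.filter (fun e => Nat.beq e.1 i)).map
    (fun e => e.2.2)).sum (v * c)) &&
  (List.range v).all (fun j => Nat.beq ((L.filter (fun e => Nat.beq e.2.1 j)).map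
    (fun e => e.2.2)).sum (u * c)) &&
  chk a b (u * v * c) (u * a) W L (List.range (u * a)) (List.range (u * a - 1)) 0

theorem good_of_fam {u v a b c W : ℕ} {L : List (ℕ × ℕ × ℕ)} (h : famOK u v a b c W L = true)
    {w : ℕ} (hw : W ≤ w) : Good u v w := by
  classical
  simp only [famOK, Bool.and_eq_true, List.all_eq_true, List.mem_range, Nat.beq_eq,
    Nat.blt_eq, Nat.ble_eq, djb_iff, decide_eq_true_eq] at h
  obtain ⟨⟨⟨⟨⟨⟨⟨⟨⟨⟨⟨hu, hv⟩, ha⟩, hb⟩, hc⟩, hab⟩, hW⟩, hnd⟩, hL⟩, hrow⟩, hcol⟩, hchk⟩ := h
  have hN : 0 < u * a := Nat.mul_pos hu ha
  have hw0 : 0 < w := by omega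
  have hW0 : 0 < W := by omega
  have hfil : ∀ (q : ℕ × ℕ × ℕ → Prop) [DecidablePred q],
      ∑ p ∈ L.toFinset with q p, p.2.2 = ((L.filter (fun e => decide (q e))).map
        (fun e => e.2.2)).sum := by
    intro q _
    rw [← List.sum_toFinset _ (hnd.filter _), List.toFinset_filter]
    simp
  refine good_of_pair (c := c) hu hv hw0 hc L.toFinset (fun e => e.1) (fun e => e.2.1)
    (fun e => e.2.2) ?_ ?_ ?_ ?_
  · intro p hp
    have := hL p (List.mem_toFinset.1 hp)
    exact ⟨this.1.1.1, this.1.1.2, this.1.2⟩
  · intro i hi
    rw [hfil, ← hrow i hi]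
    congr 3
    funext e
    rw [Bool.eq_iff_iff]
    simp
  · intro j hj
    rw [hfil, ← hcol j hj]
    congr 3
    funext e
    rw [Bool.eq_iff_iff]
    simp
  · intro S hS hSn
    set Bl := (range w).filter (fun k => ∀ p ∈ S, ¬ (Dj p.1 u k w ∧ Dj p.2.1 v k w)) with hBl
    let l' := L.filter (fun e => decide (e ∈ S))
    have hl' : l'.Sublist L := List.filter_sublist
    have hSl : S = l'.toFinset := by
      ext e
      simp only [l', List.mem_toFinset, List.mem_filter, decide_eq_true_eq]
      constructor
      · intro he
        exact ⟨List.mem_toFinset.1 (hS he), he⟩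
      · exact fun he => he.2
    have hmem : ∀ e, e ∈ l' ↔ e ∈ S := by
      intro e
      rw [hSl, List.mem_toFinset]
    have hsum : ∑ p ∈ S, p.2.2 = (l'.map (fun e => e.2.2)).sum := by
      rw [hSl, List.sum_toFinset _ (hnd.filter _)]
    let I := (List.range (u * a)).filter (fun s => l'.all (fun e => cov a b e s))
    let C := (List.range (u * a - 1)).filter
      (fun s => l'.all (fun e => cov a b e s || cov a b e (s + 1)))
    have hInd : I.Nodup := List.nodup_range.filter _
    have hCnd : C.Nodup := List.nodup_range.filter _
    have hcount : u * a * Bl.card ≤ w * I.length + u * a * C.length := by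
      rw [← List.toFinset_card_of_nodup hInd, ← List.toFinset_card_of_nodup hCnd]
      apply blocked_count hN (hW.trans hw)
      · intro k hk s hs1 hs2
        rw [hBl, Finset.mem_filter, Finset.mem_range] at hk
        simp only [I, List.mem_toFinset, List.mem_filter, List.mem_range, List.all_eq_true]
        constructor
        · by_contra hcon
          push Not at hcon
          have h3 : u * a * w ≤ s * w := Nat.mul_le_mul_right _ hcon
          have h4 : (k + 1) * (u * a) ≤ w * (u * a) := Nat.mul_le_mul_right _ hk.1
          nlinarith
        · intro e he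
          have h3 := hk.2 e ((hmem e).1 he)
          simp only [cov, Bool.or_eq_true, Bool.and_eq_true, Nat.ble_eq, Nat.blt_eq]
          by_cases h4 : Dj e.1 u k w
          · right
            have h5 : ¬ Dj e.2.1 v k w := fun h5 => h3 ⟨h4, h5⟩
            unfold Dj at h5
            push Not at h5
            rw [hab] at hs1 hs2
            constructor
            · have : e.2.1 * b * w < (s + 1) * w := by
                calc e.2.1 * b * w = b * (e.2.1 * w) := by ring
                  _ < b * ((k + 1) * v) := Nat.mul_lt_mul_of_pos_left h5.2 hb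
                  _ = (k + 1) * (v * b) := by ring
                  _ ≤ _ := hs2
              exact Nat.lt_succ_iff.1 (Nat.lt_of_mul_lt_mul_right this)
            · have : s * w < (e.2.1 + 1) * b * w := by
                calc s * w ≤ k * (v * b) := hs1
                  _ = b * (k * v) := by ring
                  _ < b * ((e.2.1 + 1) * w) := Nat.mul_lt_mul_of_pos_left h5.1 hb
                  _ = _ := by ring
              exact Nat.lt_of_mul_lt_mul_right this
          · left
            have h5 := h4
            unfold Dj at h5
            push Not at h5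
            constructor
            · have : e.1 * a * w < (s + 1) * w := by
                calc e.1 * a * w = a * (e.1 * w) := by ring
                  _ < a * ((k + 1) * u) := Nat.mul_lt_mul_of_pos_left h5.2 ha
                  _ = (k + 1) * (u * a) := by ring
                  _ ≤ _ := hs2
              exact Nat.lt_succ_iff.1 (Nat.lt_of_mul_lt_mul_right this)
            · have : s * w < (e.1 + 1) * a * w := by
                calc s * w ≤ k * (u * a) := hs1
                  _ = a * (k * u) := by ring
                  _ < a * ((e.1 + 1) * w) := Nat.mul_lt_mul_of_pos_left h5.1 ha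
                  _ = _ := by ring
              exact Nat.lt_of_mul_lt_mul_right this
      · intro k hk s hs1 hs2 hs3
        have hs4 : (k + 1) * (u * a) < (s + 2) * w := by
          have h1 := hW.trans hw
          have h2 : (k + 1) * (u * a) = k * (u * a) + u * a := by ring
          have h3 : (s + 2) * w = (s + 1) * w + w := by ring
          omega
        rw [hBl, Finset.mem_filter, Finset.mem_range] at hk
        simp only [C, List.mem_toFinset, List.mem_filter, List.mem_range, List.all_eq_true]
        constructor
        · by_contra hcon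
          push Not at hcon
          have h3 : u * a * w ≤ (s + 1) * w := Nat.mul_le_mul_right _ (by omega)
          have h4 : (k + 1) * (u * a) ≤ w * (u * a) := Nat.mul_le_mul_right _ hk.1
          nlinarith
        · intro e he
          have h3 := hk.2 e ((hmem e).1 he)
          simp only [cov, Bool.or_eq_true, Bool.and_eq_true, Nat.ble_eq, Nat.blt_eq]
          by_cases h4 : Dj e.1 u k w
          · have h5 : ¬ Dj e.2.1 v k w := fun h5 => h3 ⟨h4, h5⟩
            unfold Dj at h5
            push Not at h5
            rw [hab] at hs1 hs4
            have h6 : e.2.1 * b < s + 2 := by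
              have : e.2.1 * b * w < (s + 2) * w := by
                calc e.2.1 * b * w = b * (e.2.1 * w) := by ring
                  _ < b * ((k + 1) * v) := Nat.mul_lt_mul_of_pos_left h5.2 hb
                  _ = (k + 1) * (v * b) := by ring
                  _ < _ := hs4
              exact Nat.lt_of_mul_lt_mul_right this
            have h7 : s < (e.2.1 + 1) * b := by
              have : s * w < (e.2.1 + 1) * b * w := by
                calc s * w ≤ k * (v * b) := hs1
                  _ = b * (k * v) := by ring
                  _ < b * ((e.2.1 + 1) * w) := Nat.mul_lt_mul_of_pos_left h5.1 hb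
                  _ = _ := by ring
              exact Nat.lt_of_mul_lt_mul_right this
            have h8 : (e.2.1 + 1) * b = e.2.1 * b + b := by ring
            rcases Nat.lt_or_ge s (e.2.1 * b) with h9 | h9
            · right; right; constructor <;> omega
            · left; right; constructor <;> omega
          · have h5 := h4
            unfold Dj at h5
            push Not at h5
            have h6 : e.1 * a < s + 2 := by
              have : e.1 * a * w < (s + 2) * w := by
                calc e.1 * a * w = a * (e.1 * w) := by ring
                  _ < a * ((k + 1) * u) := Nat.mul_lt_mul_of_pos_left h5.2 ha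
                  _ = (k + 1) * (u * a) := by ring
                  _ < _ := hs4
              exact Nat.lt_of_mul_lt_mul_right this
            have h7 : s < (e.1 + 1) * a := by
              have : s * w < (e.1 + 1) * a * w := by
                calc s * w ≤ k * (u * a) := hs1
                  _ = a * (k * u) := by ring
                  _ < a * ((e.1 + 1) * w) := Nat.mul_lt_mul_of_pos_left h5.1 ha
                  _ = _ := by ring
              exact Nat.lt_of_mul_lt_mul_right this
            have h8 : (e.1 + 1) * a = e.1 * a + a := by ring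
            rcases Nat.lt_or_ge s (e.1 * a) with h9 | h9
            · right; left; constructor <;> omega
            · left; left; constructor <;> omega
    have hs := chk_sound a b (u * v * c) (u * a) W L _ _ 0 hchk l' hl'
    have hpos : 0 < ∑ p ∈ S, p.2.2 := by
      obtain ⟨e, he⟩ := hSn
      have := (hL e (List.mem_toFinset.1 (hS he))).2
      exact lt_of_lt_of_le this (Finset.single_le_sum (f := fun p : ℕ × ℕ × ℕ => p.2.2)
        (fun _ _ => Nat.zero_le _) he)
    have hle : ∑ p ∈ S, p.2.2 ≤ u * v * c := by
      calc ∑ p ∈ S, p.2.2 ≤ ∑ p ∈ L.toFinset, p.2.2 := Finset.sum_le_sum_of_subset hS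
        _ = ∑ i ∈ range u, ∑ p ∈ L.toFinset with p.1 = i, p.2.2 := by
            rw [Finset.sum_fiberwise_of_maps_to]
            intro p hp
            exact Finset.mem_range.2 (hL p (List.mem_toFinset.1 hp)).1.1.1
        _ = ∑ i ∈ range u, v * c := by
            apply Finset.sum_congr rfl
            intro i hi
            rw [hfil, ← hrow i (Finset.mem_range.1 hi)]
            congr 3
            funext e
            rw [Bool.eq_iff_iff]
            simp
        _ = u * v * c := by simp [mul_assoc]
    change (I = [] ∧ C = []) ∨ _ ∨ (_ * I.length + _ * C.length + _ ≤ _) at hs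
    rw [zero_add, ← hsum] at hs
    generalize (∑ p ∈ S, p.2.2) = X at hs hpos hle ⊢
    rcases hs with ⟨hI, hC⟩ | h0 | hle2
    · rw [hI, hC] at hcount
      have : Bl.card = 0 := by
        have h5 : u * a * Bl.card = 0 := by simpa using hcount
        rcases Nat.mul_eq_zero.1 h5 with h6 | h6
        · omega
        · exact h6
      rw [this, mul_zero, add_zero, mul_comm]
      exact Nat.mul_le_mul_right _ hle
    · omega
    · generalize I.length = i0 at hcount hle2
      generalize C.length = c0 at hcount hle2
      generalize Bl.card = z at hcount ⊢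
      generalize u * v * c = T at hle2 hle ⊢
      generalize u * a = N at hcount hle2 hN
      have h1 : T * i0 + N * X ≤ T * N := by
        have e0 : (T * i0 + N * X) * W + T * N * c0 = T * W * i0 + T * N * c0 + N * W * X := by
          ring
        have : (T * i0 + N * X) * W ≤ T * N * W := by omega
        exact Nat.le_of_mul_le_mul_right this hW0
      obtain ⟨d, hd⟩ := Nat.exists_eq_add_of_le h1
      have h2 : T * N * c0 ≤ d * W := by
        have e0 : (T * i0 + N * X) * W + T * N * c0 = T * W * i0 + T * N * c0 + N * W * X := by
          ring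
        have e1 : T * N * W = (T * i0 + N * X) * W + d * W := by rw [hd]; ring
        omega
      have h3 : d * W ≤ d * w := Nat.mul_le_mul_left _ hw
      have h4 : N * (w * X + T * z) ≤ N * (T * w) := by
        calc N * (w * X + T * z) = w * (N * X) + T * (N * z) := by ring
          _ ≤ w * (N * X) + T * (w * i0 + N * c0) :=
            Nat.add_le_add_left (Nat.mul_le_mul_left _ hcount) _
          _ = w * (T * i0 + N * X) + T * N * c0 := by ring
          _ ≤ w * (T * i0 + N * X) + d * w := Nat.add_le_add_left (h2.trans h3) _
          _ = w * (T * i0 + N * X + d) := by ring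
          _ = w * (T * N) := by rw [← hd]
          _ = N * (T * w) := by ring
      exact Nat.le_of_mul_le_mul_left h4 hN


end Pool.Agent.KS6_49.TI
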