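import Mathlib

/-!
The three intervals game: definition of the value and the two basic bounds.
-/

namespace Pool.Agent.KS6_49.TI

open MeasureTheory Set

/-- `J i = (left end, right end)`: a triple of closed subintervals of `[0,1]` whose lengths are
at most `α 0`, `α 1`, `α 2`. -/
def Admissible (α : Fin 3 → ℝ) (J : Fin 3 → ℝ × ℝ) : Prop :=
  ∀ i, 0 ≤ (J i).1 ∧ (J i).1 ≤ (J i).2 ∧ (J i).2 ≤ 1 ∧ (J i).2 - (J i).1 ≤ α i

/-- The set of points of `[0,1]` not covered by the three intervals. -/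
def uncovered (J : Fin 3 → ℝ × ℝ) : Set ℝ := Icc 0 1 \ ⋃ i, Icc (J i).1 (J i).2

/-- The value of the three intervals game, as the escape probability of BLUE: the supremum over
Borel probability measures on `[0,1]` of the infimum over admissible triples of the mass of the
uncovered set. -/
noncomputable def G (α : Fin 3 → ℝ) : ℝ :=
  ⨆ μ : {μ : Measure ℝ // IsProbabilityMeasure μ ∧ μ (Icc 0 1)ᶜ = 0},
    ⨅ J : {J : Fin 3 → ℝ × ℝ // Admissible α J}, (μ.1 (uncovered J.1)).toReal

lemma measurableSet_uncovered (J : Fin 3 → ℝ × ℝ) : MeasurableSet (uncovered J) :=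
  measurableSet_Icc.diff (MeasurableSet.iUnion fun _ => measurableSet_Icc)

lemma nonempty_adm {α : Fin 3 → ℝ} (hα : ∀ i, 0 ≤ α i) :
    Nonempty {J : Fin 3 → ℝ × ℝ // Admissible α J} :=
  ⟨⟨fun _ => (0, 0), fun i => by simp [hα i]⟩⟩

lemma bddBelow_esc (α : Fin 3 → ℝ) (μ : Measure ℝ) :
    BddBelow (Set.range fun J : {J : Fin 3 → ℝ × ℝ // Admissible α J} =>
      (μ (uncovered J.1)).toReal) :=
  ⟨0, by rintro _ ⟨J, rfl⟩; exact ENNReal.toReal_nonneg⟩

lemma esc_le_one (μ : Measure ℝ) [IsProbabilityMeasure μ] (J : Fin 3 → ℝ × ℝ) :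
    (μ (uncovered J)).toReal ≤ 1 := by
  have := prob_le_one (μ := μ) (s := uncovered J)
  exact ENNReal.toReal_mono ENNReal.one_ne_top this |>.trans_eq (by simp)

/-- BLUE's bound. -/
theorem le_G {α : Fin 3 → ℝ} (hα : ∀ i, 0 ≤ α i) {g : ℝ} (μ : Measure ℝ)
    [hμ : IsProbabilityMeasure μ] (hμ0 : μ (Icc 0 1)ᶜ = 0)
    (h : ∀ J, Admissible α J → g ≤ (μ (uncovered J)).toReal) : g ≤ G α := by
  have := nonempty_adm hα
  have hb : BddAbove (Set.range fun μ : {μ : Measure ℝ // IsProbabilityMeasure μ ∧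
      μ (Icc 0 1)ᶜ = 0} =>
    ⨅ J : {J : Fin 3 → ℝ × ℝ // Admissible α J}, (μ.1 (uncovered J.1)).toReal) := by
    refine ⟨1, ?_⟩
    rintro _ ⟨⟨ν, hν, hν0⟩, rfl⟩
    have := hν
    obtain ⟨J⟩ := nonempty_adm hα
    exact (ciInf_le (bddBelow_esc α ν) J).trans (esc_le_one ν J.1)
  refine le_ciSup_of_le hb ⟨μ, hμ, hμ0⟩ ?_
  exact le_ciInf (fun J => h J.1 J.2)

/-- RED's bound: a finite mixture of admissible triples. -/
theorem G_le {α : Fin 3 → ℝ} {g T : ℝ} (hT : 0 < T) {ι : Type*} (s : Finset ι) (m : ι → ℝ)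
    (hm : ∀ r ∈ s, 0 ≤ m r) (hsum : ∑ r ∈ s, m r = T) (J : ι → Fin 3 → ℝ × ℝ)
    (hJ : ∀ r ∈ s, Admissible α (J r))
    (h : ∀ x ∈ Icc (0 : ℝ) 1, ∑ r ∈ s, m r * (uncovered (J r)).indicator 1 x ≤ g * T) :
    G α ≤ g := by
  classical
  have : Nonempty {μ : Measure ℝ // IsProbabilityMeasure μ ∧ μ (Icc 0 1)ᶜ = 0} :=
    ⟨⟨Measure.dirac 0, inferInstance, by
      rw [Measure.dirac_apply' _ measurableSet_Icc.compl]
      simp⟩⟩
  refine ciSup_le ?_
  rintro ⟨μ, hμ, hμ0⟩
  have := hμ
  set I := ⨅ J : {J : Fin 3 → ℝ × ℝ // Admissible α J}, (μ (uncovered J.1)).toReal with hI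
  have h1 : T * I ≤ ∑ r ∈ s, m r * (μ (uncovered (J r))).toReal := by
    rw [← hsum, Finset.sum_mul]
    refine Finset.sum_le_sum (fun r hr => mul_le_mul_of_nonneg_left ?_ (hm r hr))
    exact ciInf_le (bddBelow_esc α μ) ⟨J r, hJ r hr⟩
  have h2 : ∑ r ∈ s, m r * (μ (uncovered (J r))).toReal =
      ∫ x, ∑ r ∈ s, m r * (uncovered (J r)).indicator 1 x ∂μ := by
    rw [integral_finsetSum]
    · refine Finset.sum_congr rfl (fun r _ => ?_)
      rw [integral_const_mul, integral_indicator_one (measurableSet_uncovered _)]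
      rfl
    · intro r _
      refine Integrable.const_mul ?_ _
      exact (integrable_const (1 : ℝ)).indicator (measurableSet_uncovered _)
  have h3 : ∫ x, ∑ r ∈ s, m r * (uncovered (J r)).indicator 1 x ∂μ ≤ ∫ _, g * T ∂μ := by
    refine integral_mono_ae ?_ (integrable_const _) ?_
    · refine integrable_finsetSum _ (fun r _ => Integrable.const_mul ?_ _)
      exact (integrable_const (1 : ℝ)).indicator (measurableSet_uncovered _)
    · have : ∀ᵐ x ∂μ, x ∈ Icc (0 : ℝ) 1 := by
        rw [ae_iff]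
        exact hμ0
      filter_upwards [this] with x hx
      exact h x hx
  rw [integral_const] at h3
  simp at h3
  have h4 : T * I ≤ g * T := h1.trans (h2.trans_le h3)
  nlinarith

/-- BLUE's generic bound from Lebesgue measure. -/
theorem generic_le_G {α : Fin 3 → ℝ} (hα : ∀ i, 0 ≤ α i) : 1 - α 0 - α 1 - α 2 ≤ G α := by
  have : IsProbabilityMeasure ((volume : Measure ℝ).restrict (Icc 0 1)) :=
    ⟨by simp⟩
  refine le_G hα ((volume : Measure ℝ).restrict (Icc 0 1)) ?_ ?_
  · rw [Measure.restrict_apply measurableSet_Icc.compl]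
    simp
  · intro J hJ
    rw [Measure.restrict_apply (measurableSet_uncovered J)]
    have h1 : uncovered J ∩ Icc 0 1 = Icc 0 1 \ ⋃ i, Icc (J i).1 (J i).2 := by
      unfold uncovered
      ext x; simp only [mem_inter_iff, mem_sdiff]; tauto
    rw [h1]
    have h2 := measureReal_sdiff_add_inter (μ := (volume : Measure ℝ)) (s := Icc (0:ℝ) 1)
      (t := ⋃ i, Icc (J i).1 (J i).2) (MeasurableSet.iUnion fun _ => measurableSet_Icc)
      (h := by simp)
    have h3 : volume.real (Icc (0:ℝ) 1 ∩ ⋃ i, Icc (J i).1 (J i).2) ≤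
        ∑ i : Fin 3, volume.real (Icc (J i).1 (J i).2) := by
      refine (measureReal_mono inter_subset_right ?_).trans (measureReal_iUnion_fintype_le _)
      have hsub : (⋃ i, Icc (J i).1 (J i).2) ⊆ Icc (0:ℝ) 1 :=
        iUnion_subset fun i => Icc_subset_Icc (hJ i).1 (hJ i).2.2.1
      refine ((measure_mono hsub).trans_lt ?_).ne
      simp
    have h4 : ∀ i, volume.real (Icc (J i).1 (J i).2) ≤ α i := by
      intro i
      rw [Real.volume_real_Icc_of_le (hJ i).2.1]
      exact (hJ i).2.2.2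
    have h5 : volume.real (Icc (0:ℝ) 1) = 1 := by simp
    rw [Fin.sum_univ_three] at h3
    have a0 := h4 0
    have a1 := h4 1
    have a2 := h4 2
    change _ ≤ volume.real _
    linarith

/-- A discrete strategy of BLUE on the points `i/(M-1)`, `i < M`. -/
theorem discrete_le_G {M : ℕ} (hM : 2 ≤ M) {α : Fin 3 → ℝ} (L : Fin 3 → ℕ)
    (hL : ∀ k, 1 ≤ L k) (hα : ∀ k, α k = L k / M)
    (wt : ℕ → ℕ) (D e : ℕ) (hD : ∑ i ∈ Finset.range M, wt i = D) (hD0 : 0 < D)
    (h : ∀ s : Fin 3 → ℕ, e ≤ ∑ i ∈ Finset.range M with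
      (∀ k, ¬ (s k ≤ i ∧ i < s k + L k)), wt i) :
    (e : ℝ) / D ≤ G α := by
  classical
  have hM0 : (0 : ℝ) < M := by positivity
  have hM1 : (0 : ℝ) < (M : ℝ) - 1 := by
    have : (2 : ℝ) ≤ M := by exact_mod_cast hM
    linarith
  have hDr : (0 : ℝ) < D := by exact_mod_cast hD0
  let x : ℕ → ℝ := fun i => (i : ℝ) / ((M : ℝ) - 1)
  let μ : Measure ℝ := ∑ i ∈ Finset.range M, ENNReal.ofReal ((wt i : ℝ) / D) • Measure.dirac (x i)
  have hμ : ∀ S : Set ℝ, MeasurableSet S → (μ S).toReal =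
      ∑ i ∈ Finset.range M, ((wt i : ℝ) / D) * S.indicator 1 (x i) := by
    intro S hS
    simp only [μ, Measure.coe_finsetSum, Finset.sum_apply, Measure.smul_apply,
      Measure.dirac_apply' _ hS, smul_eq_mul]
    rw [ENNReal.toReal_sum]
    · refine Finset.sum_congr rfl (fun i _ => ?_)
      rw [ENNReal.toReal_mul, ENNReal.toReal_ofReal (by positivity)]
      congr 1
      by_cases hi : x i ∈ S <;> simp [hi]
    · intro i _
      refine ENNReal.mul_ne_top ENNReal.ofReal_ne_top ?_
      by_cases hi : x i ∈ S <;> simp [hi]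
  have hfin : ∀ S : Set ℝ, μ S ≠ ⊤ := by
    intro S
    refine ((measure_mono (subset_univ S)).trans_lt ?_).ne
    simp only [μ, Measure.coe_finsetSum, Finset.sum_apply, Measure.smul_apply,
      Measure.dirac_apply' _ MeasurableSet.univ, smul_eq_mul]
    refine ENNReal.sum_lt_top.2 (fun i _ => ?_)
    simp
  have hprob : IsProbabilityMeasure μ := by
    refine ⟨?_⟩
    rw [← ENNReal.toReal_eq_one_iff, hμ _ MeasurableSet.univ]
    simp only [indicator_univ, Pi.one_apply, mul_one]
    rw [← Finset.sum_div, ← Nat.cast_sum, hD]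
    exact div_self hDr.ne'
  refine le_G (fun k => ?_) μ ?_ ?_
  · rw [hα]; positivity
  · have h1 := hμ _ (measurableSet_Icc (a := (0:ℝ)) (b := 1)).compl
    have h2 : ∑ i ∈ Finset.range M, ((wt i : ℝ) / D) * (Icc (0:ℝ) 1)ᶜ.indicator 1 (x i) = 0 := by
      refine Finset.sum_eq_zero (fun i hi => ?_)
      have hi' : i + 1 ≤ M := Finset.mem_range.1 hi
      have hi2 : (i : ℝ) + 1 ≤ M := by exact_mod_cast hi'
      have : x i ∈ Icc (0:ℝ) 1 := by
        refine ⟨by positivity, ?_⟩
        rw [div_le_one hM1]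
        linarith
      simp [this]
    rw [h2] at h1
    exact (ENNReal.toReal_eq_zero_iff _).1 h1 |>.resolve_right (hfin _)
  · intro J hJ
    rw [hμ _ (measurableSet_uncovered J)]
    let s : Fin 3 → ℕ := fun k => ⌈(J k).1 * ((M : ℝ) - 1)⌉₊
    have h1 := h s
    have h2 : ((∑ i ∈ Finset.range M with (∀ k, ¬ (s k ≤ i ∧ i < s k + L k)), wt i : ℕ) : ℝ) / D ≤
        ∑ i ∈ Finset.range M, ((wt i : ℝ) / D) * (uncovered J).indicator 1 (x i) := by
      rw [Finset.sum_filter, Nat.cast_sum, Finset.sum_div]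
      refine Finset.sum_le_sum (fun i hi => ?_)
      by_cases hc : ∀ k, ¬ (s k ≤ i ∧ i < s k + L k)
      · have hi' : i + 1 ≤ M := Finset.mem_range.1 hi
        have hi2 : (i : ℝ) + 1 ≤ M := by exact_mod_cast hi'
        have hmem : x i ∈ uncovered J := by
          refine ⟨⟨by positivity, ?_⟩, ?_⟩
          · rw [div_le_one hM1]; linarith
          · rw [mem_iUnion]
            rintro ⟨k, hk1, hk2⟩
            refine hc k ⟨?_, ?_⟩
            · refine Nat.ceil_le.2 ?_
              rw [le_div_iff₀ hM1] at hk1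
              exact hk1
            · have h3 : (i : ℝ) ≤ (J k).2 * ((M : ℝ) - 1) := by
                rwa [div_le_iff₀ hM1] at hk2
              have h4 := (hJ k).2.2.2
              rw [hα k] at h4
              have h5 : (J k).1 * ((M : ℝ) - 1) ≤ s k := Nat.le_ceil _
              have h6 : (J k).2 * ((M : ℝ) - 1) ≤
                  (J k).1 * ((M : ℝ) - 1) + (L k : ℝ) / M * ((M : ℝ) - 1) := by nlinarith
              have h7 : (L k : ℝ) / M * ((M : ℝ) - 1) < L k := by
                have : (L k : ℝ) / M * ((M : ℝ) - 1) = L k - L k / M := by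
                  field_simp
                rw [this]
                have : (0 : ℝ) < L k := by exact_mod_cast (hL k)
                have : (0 : ℝ) < (L k : ℝ) / M := by positivity
                linarith
              have h8 : (i : ℝ) < (s k : ℝ) + L k := by linarith
              exact_mod_cast h8
        simp only [hc, not_false_eq_true, implies_true, if_true, hmem, indicator_of_mem,
          Pi.one_apply, mul_one, le_refl]
      · rw [if_neg hc]
        have : (0 : ℝ) ≤ (uncovered J).indicator 1 (x i) :=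
          indicator_nonneg (fun _ _ => by simp) _
        have : (0 : ℝ) ≤ (wt i : ℝ) / D * (uncovered J).indicator 1 (x i) := by positivity
        simpa using this
    refine le_trans ?_ h2
    gcongr

end Pool.Agent.KS6_49.TI
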