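import Pool.Agent.KS6_49.TI.Upper

/-!
Checkers for explicit optimal strategies of both players on a common grid.
-/

namespace Pool.Agent.KS6_49.TI

open MeasureTheory Set

/-- The total weight of the entries of `R` whose three windows all miss the cell `i`. -/
def missW (L0 L1 L2 i : ℕ) : List (ℕ × ℕ × ℕ × ℕ) → ℕ
  | [] => 0
  | e :: l =>
    bif (Nat.ble e.1 i && Nat.blt i (e.1 + L0)) || (Nat.ble e.2.1 i && Nat.blt i (e.2.1 + L1)) ||
      (Nat.ble e.2.2.1 i && Nat.blt i (e.2.2.1 + L2))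
    then missW L0 L1 L2 i l else e.2.2.2 + missW L0 L1 L2 i l

/-- Checker for a RED strategy: windows of `L0`, `L1`, `L2` cells on the grid of `M` cells. -/
def redOK (M L0 L1 L2 T P Q : ℕ) (R : List (ℕ × ℕ × ℕ × ℕ)) : Bool :=
  Nat.blt 0 M && Nat.blt 0 T && Nat.blt 0 Q &&
  R.all (fun e => Nat.ble (e.1 + L0) M && Nat.ble (e.2.1 + L1) M && Nat.ble (e.2.2.1 + L2) M) &&
  Nat.beq (R.map (fun e => e.2.2.2)).sum T &&
  (List.range M).all (fun i => Nat.ble (Q * missW L0 L1 L2 i R) (P * T))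

/-- The triple of windows. -/
noncomputable def winJ (M L0 L1 L2 : ℕ) (e : ℕ × ℕ × ℕ × ℕ) : Fin 3 → ℝ × ℝ :=
  ![((e.1 : ℝ) / M, ((e.1 : ℝ) + L0) / M), ((e.2.1 : ℝ) / M, ((e.2.1 : ℝ) + L1) / M),
    ((e.2.2.1 : ℝ) / M, ((e.2.2.1 : ℝ) + L2) / M)]

lemma win_ok {M L s : ℕ} (hM : 0 < M) (h : s + L ≤ M) : 0 ≤ (s : ℝ) / M ∧
    (s : ℝ) / M ≤ ((s : ℝ) + L) / M ∧ ((s : ℝ) + L) / M ≤ 1 ∧
    ((s : ℝ) + L) / M - (s : ℝ) / M ≤ L / M := by
  have hM' : (0:ℝ) < M := by exact_mod_cast hM
  refine ⟨by positivity, ?_, ?_, ?_⟩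
  · gcongr
    have : (0:ℝ) ≤ L := by positivity
    linarith
  · rw [div_le_one hM']
    exact_mod_cast h
  · rw [← sub_div]; simp

lemma win_cover {M L s i : ℕ} {x : ℝ} (hM : 0 < M) (h1 : (i : ℝ) / M ≤ x)
    (h2 : x ≤ ((i : ℝ) + 1) / M) (h3 : s ≤ i) (h4 : i < s + L) :
    x ∈ Icc ((s : ℝ) / M) (((s : ℝ) + L) / M) := by
  have hM' : (0:ℝ) < M := by exact_mod_cast hM
  constructor
  · refine le_trans ?_ h1
    gcongr
  · refine h2.trans ?_
    have h5 : (i : ℝ) + 1 ≤ (s : ℝ) + L := by exact_mod_cast h4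
    exact div_le_div_of_nonneg_right h5 hM'.le

theorem G_le_of_redOK {M L0 L1 L2 T P Q : ℕ} {R : List (ℕ × ℕ × ℕ × ℕ)}
    (h : redOK M L0 L1 L2 T P Q R = true) :
    G ![(L0 : ℝ) / M, (L1 : ℝ) / M, (L2 : ℝ) / M] ≤ (P : ℝ) / Q := by
  classical
  simp only [redOK, Bool.and_eq_true, List.all_eq_true, List.mem_range, Nat.beq_eq,
    Nat.blt_eq, Nat.ble_eq] at h
  obtain ⟨⟨⟨⟨⟨hM, hT⟩, hQ⟩, hR⟩, hsum⟩, hmiss⟩ := h
  have hT' : (0:ℝ) < T := by exact_mod_cast hT
  have hQ' : (0:ℝ) < Q := by exact_mod_cast hQ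
  refine G_le (T := T) hT' (Finset.univ : Finset (Fin R.length))
    (fun r => ((R[r.1]).2.2.2 : ℝ)) (fun _ _ => by positivity) ?_
    (fun r => winJ M L0 L1 L2 (R[r.1])) ?_ ?_
  · rw [Fin.sum_univ_fun_getElem R (fun e => (e.2.2.2 : ℝ)), ← hsum]
    rw [Nat.cast_list_sum, List.map_map]
    rfl
  · intro r _ i
    have hr := hR _ (List.getElem_mem r.2)
    fin_cases i
    · exact win_ok hM hr.1.1
    · exact win_ok hM hr.1.2
    · exact win_ok hM hr.2
  · intro x hx
    obtain ⟨a1, a2, a3⟩ := cellIdx_spec hx hM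
    have hm := hmiss _ a1
    generalize cellIdx x M = i at *
    rw [Fin.sum_univ_fun_getElem R
      (fun e => (e.2.2.2 : ℝ) * (uncovered (winJ M L0 L1 L2 e)).indicator 1 x)]
    have key : ∀ l : List (ℕ × ℕ × ℕ × ℕ),
        (l.map (fun e => (e.2.2.2 : ℝ) * (uncovered (winJ M L0 L1 L2 e)).indicator 1 x)).sum ≤
          (missW L0 L1 L2 i l : ℝ) := by
      intro l
      induction l with
      | nil => simp [missW]
      | cons e l ih =>
        rw [List.map_cons, List.sum_cons, missW]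
        have hle1 : (uncovered (winJ M L0 L1 L2 e)).indicator (1 : ℝ → ℝ) x ≤ 1 := by
          apply indicator_apply_le'
          · intro _; simp
          · intro _; norm_num
        cases hb : ((Nat.ble e.1 i && Nat.blt i (e.1 + L0)) ||
          (Nat.ble e.2.1 i && Nat.blt i (e.2.1 + L1)) ||
          (Nat.ble e.2.2.1 i && Nat.blt i (e.2.2.1 + L2)))
        · rw [cond_false]
          push_cast
          have : (0:ℝ) ≤ e.2.2.2 := by positivity
          nlinarith
        · rw [cond_true]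
          have : x ∉ uncovered (winJ M L0 L1 L2 e) := by
            intro hx'
            simp only [Bool.or_eq_true, Bool.and_eq_true, Nat.ble_eq, Nat.blt_eq] at hb
            rcases hb with (hb | hb) | hb
            · exact hx'.2 (mem_iUnion.2 ⟨0, win_cover hM a2 a3 hb.1 hb.2⟩)
            · exact hx'.2 (mem_iUnion.2 ⟨1, win_cover hM a2 a3 hb.1 hb.2⟩)
            · exact hx'.2 (mem_iUnion.2 ⟨2, win_cover hM a2 a3 hb.1 hb.2⟩)
          simp only [this, not_false_eq_true, indicator_of_notMem, mul_zero, zero_add]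
          exact ih
    refine (key R).trans ?_
    have h5 : (Q : ℝ) * (missW L0 L1 L2 i R : ℝ) ≤ P * T := by exact_mod_cast hm
    rw [div_mul_eq_mul_div, le_div_iff₀ hQ']
    linarith

/-- Dynamic programming bound for BLUE. -/
lemma dp_bound (M : ℕ) (L : Fin 3 → ℕ) (hL : ∀ k, 1 ≤ L k) (wt : ℕ → ℕ)
    (E : Bool → Bool → Bool → ℕ → ℕ)
    (h0 : ∀ a b c t, M ≤ t → E a b c t = 0)
    (h1 : ∀ a b c t, t < M → E a b c t ≤ wt t + E a b c (t + 1))
    (h2 : ∀ b c t, t < M → E true b c t ≤ E false b c (t + L 0))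
    (h3 : ∀ a c t, t < M → E a true c t ≤ E a false c (t + L 1))
    (h4 : ∀ a b t, t < M → E a b true t ≤ E a b false (t + L 2)) (s : Fin 3 → ℕ) :
    ∀ n t a b c, M - t ≤ n → E a b c t ≤ ∑ i ∈ Finset.Ico t M with
      ((a = true → ¬ (s 0 ≤ i ∧ i < s 0 + L 0)) ∧ (b = true → ¬ (s 1 ≤ i ∧ i < s 1 + L 1)) ∧
        (c = true → ¬ (s 2 ≤ i ∧ i < s 2 + L 2))), wt i := by
  intro n
  induction n with
  | zero =>
    intro t a b c hn
    rw [h0 a b c t (by omega)]
    exact Nat.zero_le _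
  | succ n ih =>
    intro t a b c hn
    rcases Nat.lt_or_ge t M with ht | ht
    swap
    · rw [h0 a b c t ht]
      exact Nat.zero_le _
    by_cases hc : (a = true → ¬ (s 0 ≤ t ∧ t < s 0 + L 0)) ∧
        (b = true → ¬ (s 1 ≤ t ∧ t < s 1 + L 1)) ∧ (c = true → ¬ (s 2 ≤ t ∧ t < s 2 + L 2))
    · refine (h1 a b c t ht).trans ?_
      rw [Finset.sum_filter, Finset.sum_eq_sum_Ico_succ_bot ht, if_pos hc, ← Finset.sum_filter]
      exact Nat.add_le_add_left (ih (t + 1) a b c (by omega)) _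
    · have hL0 := hL 0
      have hL1 := hL 1
      have hL2 := hL 2
      have hcase : (a = true ∧ s 0 ≤ t ∧ t < s 0 + L 0) ∨ (b = true ∧ s 1 ≤ t ∧ t < s 1 + L 1) ∨
          (c = true ∧ s 2 ≤ t ∧ t < s 2 + L 2) := by
        by_contra hcon
        push Not at hcon
        exact hc ⟨fun ha hh => absurd hh.2 (not_lt.2 (hcon.1 ha hh.1)),
          fun ha hh => absurd hh.2 (not_lt.2 (hcon.2.1 ha hh.1)),
          fun ha hh => absurd hh.2 (not_lt.2 (hcon.2.2 ha hh.1))⟩
      rcases hcase with ⟨rfl, hs1, hs2⟩ | ⟨rfl, hs1, hs2⟩ | ⟨rfl, hs1, hs2⟩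
      · refine ((h2 b c t ht).trans (ih (t + L 0) false b c (by omega))).trans ?_
        refine Finset.sum_le_sum_of_subset ?_
        intro i hi
        simp only [Finset.mem_filter, Finset.mem_Ico] at hi ⊢
        refine ⟨⟨by omega, hi.1.2⟩, fun _ => by omega, hi.2.2.1, hi.2.2.2⟩
      · refine ((h3 a c t ht).trans (ih (t + L 1) a false c (by omega))).trans ?_
        refine Finset.sum_le_sum_of_subset ?_
        intro i hi
        simp only [Finset.mem_filter, Finset.mem_Ico] at hi ⊢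
        refine ⟨⟨by omega, hi.1.2⟩, hi.2.1, fun _ => by omega, hi.2.2.2⟩
      · refine ((h4 a b t ht).trans (ih (t + L 2) a b false (by omega))).trans ?_
        refine Finset.sum_le_sum_of_subset ?_
        intro i hi
        simp only [Finset.mem_filter, Finset.mem_Ico] at hi ⊢
        refine ⟨⟨by omega, hi.1.2⟩, hi.2.1, hi.2.2.1, fun _ => by omega⟩

/-- The eight tables; the order is by the Booleans `a b c` read as binary digits. -/
def tabOf (tb : List (List ℕ)) (a b c : Bool) : List ℕ :=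
  tb.getD ((bif a then 4 else 0) + (bif b then 2 else 0) + (bif c then 1 else 0)) []

/-- Checker for a BLUE strategy. -/
def blueOK (M L0 L1 L2 D e : ℕ) (wt : List ℕ) (tb : List (List ℕ)) : Bool :=
  Nat.ble 2 M && Nat.ble 1 L0 && Nat.ble 1 L1 && Nat.ble 1 L2 && Nat.blt 0 D &&
  Nat.beq wt.length M && Nat.beq wt.sum D &&
  [true, false].all (fun a => [true, false].all (fun b => [true, false].all (fun c =>
    Nat.beq (tabOf tb a b c).length M &&
    (List.range M).all (fun t => Nat.ble ((tabOf tb a b c).getD t 0)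
      (wt.getD t 0 + (tabOf tb a b c).getD (t + 1) 0)) &&
    (!a || (List.range M).all (fun t => Nat.ble ((tabOf tb a b c).getD t 0)
      ((tabOf tb false b c).getD (t + L0) 0))) &&
    (!b || (List.range M).all (fun t => Nat.ble ((tabOf tb a b c).getD t 0)
      ((tabOf tb a false c).getD (t + L1) 0))) &&
    (!c || (List.range M).all (fun t => Nat.ble ((tabOf tb a b c).getD t 0)
      ((tabOf tb a b false).getD (t + L2) 0)))))) &&
  Nat.beq ((tabOf tb true true true).getD 0 0) e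

theorem le_G_of_blueOK {M L0 L1 L2 D e : ℕ} {wt : List ℕ} {tb : List (List ℕ)}
    (h : blueOK M L0 L1 L2 D e wt tb = true) :
    (e : ℝ) / D ≤ G ![(L0 : ℝ) / M, (L1 : ℝ) / M, (L2 : ℝ) / M] := by
  classical
  simp only [blueOK, Bool.and_eq_true, List.all_eq_true, List.mem_range, Nat.beq_eq,
    Nat.blt_eq, Nat.ble_eq] at h
  obtain ⟨⟨⟨⟨⟨⟨⟨⟨hM, hL0⟩, hL1⟩, hL2⟩, hD⟩, hlen⟩, hsum⟩, htab⟩, he⟩ := h
  have hb : ∀ a : Bool, a ∈ [true, false] := by intro a; cases a <;> simp
  have hsumD : ∑ i ∈ Finset.range M, wt.getD i 0 = D := by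
    rw [← hsum, ← hlen]
    rw [← Fin.sum_univ_getElem wt, Finset.sum_range]
    refine Finset.sum_congr rfl (fun i _ => ?_)
    rw [List.getD_eq_getElem _ _ i.2]
  have hLk : ∀ k, 1 ≤ (![L0, L1, L2] : Fin 3 → ℕ) k := by
    intro k; fin_cases k
    · exact hL0
    · exact hL1
    · exact hL2
  refine discrete_le_G hM ![L0, L1, L2] hLk ?_ (fun i => wt.getD i 0) D e hsumD hD ?_
  · intro k; fin_cases k <;> rfl
  · intro s
    have key := dp_bound M ![L0, L1, L2] hLk (fun i => wt.getD i 0)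
      (fun a b c t => (tabOf tb a b c).getD t 0) (fun a b c t ht => ?_) (fun a b c t ht => ?_)
      (fun b c t ht => ?_) (fun a c t ht => ?_) (fun a b t ht => ?_) s M 0 true true true
      (by omega)
    · rw [he] at key
      refine key.trans (le_of_eq ?_)
      rw [Finset.range_eq_Ico]
      refine Finset.sum_congr (Finset.filter_congr (fun i _ => ?_)) (fun _ _ => rfl)
      constructor
      · rintro ⟨g0, g1, g2⟩ k
        fin_cases k
        · exact g0 rfl
        · exact g1 rfl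
        · exact g2 rfl
      · intro g
        exact ⟨fun _ => g 0, fun _ => g 1, fun _ => g 2⟩
    · have := (htab a (hb a) b (hb b) c (hb c)).1.1.1.1
      exact List.getD_eq_default _ _ (by rw [this]; exact ht)
    · exact (htab a (hb a) b (hb b) c (hb c)).1.1.1.2 t ht
    · have := (htab true (hb _) b (hb b) c (hb c)).1.1.2
      simp only [Bool.not_true, Bool.false_or, List.all_eq_true, List.mem_range, Nat.ble_eq] at this
      exact this t ht
    · have := (htab a (hb _) true (hb _) c (hb c)).1.2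
      simp only [Bool.not_true, Bool.false_or, List.all_eq_true, List.mem_range, Nat.ble_eq] at this
      exact this t ht
    · have := (htab a (hb _) b (hb _) true (hb _)).2
      simp only [Bool.not_true, Bool.false_or, List.all_eq_true, List.mem_range, Nat.ble_eq] at this
      exact this t ht

end Pool.Agent.KS6_49.TI
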