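import Pool.Agent.KS6_49.TI.Upper

/-!
The value for `u = v = 3`.
-/

namespace Pool.Agent.KS6_49.TI

open MeasureTheory Set

lemma two_classes (w q a b g r r' : ℕ) (h1 : 3 * q < w + 3) (h2 : w ≤ 3 * q)
    (hr : r < r') (hr' : r' < q)
    (c0 : (a ≤ 3*r ∧ 3*r < a + w) ∨ (b ≤ 3*r ∧ 3*r < b + w) ∨ (g ≤ 3*r ∧ 3*r < g + 3))
    (c1 : (a ≤ w + 3*r ∧ w + 3*r < a + w) ∨ (b ≤ w + 3*r ∧ w + 3*r < b + w) ∨
      (g ≤ w + 3*r ∧ w + 3*r < g + 3))
    (c2 : (a ≤ 2*w + 3*r ∧ 2*w + 3*r < a + w) ∨ (b ≤ 2*w + 3*r ∧ 2*w + 3*r < b + w) ∨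
      (g ≤ 2*w + 3*r ∧ 2*w + 3*r < g + 3))
    (d0 : (a ≤ 3*r' ∧ 3*r' < a + w) ∨ (b ≤ 3*r' ∧ 3*r' < b + w) ∨ (g ≤ 3*r' ∧ 3*r' < g + 3))
    (d1 : (a ≤ w + 3*r' ∧ w + 3*r' < a + w) ∨ (b ≤ w + 3*r' ∧ w + 3*r' < b + w) ∨
      (g ≤ w + 3*r' ∧ w + 3*r' < g + 3))
    (d2 : (a ≤ 2*w + 3*r' ∧ 2*w + 3*r' < a + w) ∨ (b ≤ 2*w + 3*r' ∧ 2*w + 3*r' < b + w) ∨
      (g ≤ 2*w + 3*r' ∧ 2*w + 3*r' < g + 3)) : False := by
  rcases c0 with c0 | c0 | c0 <;> rcases c1 with c1 | c1 | c1 <;>
    rcases c2 with c2 | c2 | c2 <;> omega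

/-- RED's strategy for two thirds and a short interval. -/
theorem G_thirds_le {w q : ℕ} (hw : 0 < w) (h2 : w ≤ 3 * q) :
    G ![1 / 3, 1 / 3, 1 / (w : ℝ)] ≤ 1 / 3 * (1 - 1 / (q : ℝ)) := by
  classical
  have hq : 0 < q := by omega
  have hw' : (0:ℝ) < w := by exact_mod_cast hw
  have hq' : (0:ℝ) < q := by exact_mod_cast hq
  have hwq : (w : ℝ) ≤ 3 * q := by exact_mod_cast h2
  let J : ℕ × ℕ → Fin 3 → ℝ × ℝ := fun p =>
    ![((((p.1 + 1) % 3 : ℕ) : ℝ) / 3, ((((p.1 + 1) % 3 : ℕ) : ℝ) + 1) / 3),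
      ((((p.1 + 2) % 3 : ℕ) : ℝ) / 3, ((((p.1 + 2) % 3 : ℕ) : ℝ) + 1) / 3),
      (min 1 ((p.1 : ℝ) / 3 + (p.2 : ℝ) / w), min 1 ((p.1 : ℝ) / 3 + ((p.2 : ℝ) + 1) / w))]
  refine G_le (T := 3 * q) (by positivity) (Finset.range 3 ×ˢ Finset.range q)
    (fun _ => 1) (fun _ _ => zero_le_one) ?_ J ?_ ?_
  · rw [Finset.sum_const, Finset.card_product, Finset.card_range, Finset.card_range]
    simp
  · intro p hp i
    rw [Finset.mem_product, Finset.mem_range, Finset.mem_range] at hp
    fin_cases i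
    · have h := cell_ok (A := 3) (i := (p.1 + 1) % 3) (by norm_num)
        (Nat.mod_lt _ (by norm_num))
      rw [Nat.cast_ofNat] at h
      exact h
    · have h := cell_ok (A := 3) (i := (p.1 + 2) % 3) (by norm_num)
        (Nat.mod_lt _ (by norm_num))
      rw [Nat.cast_ofNat] at h
      exact h
    · change 0 ≤ min 1 ((p.1 : ℝ) / 3 + (p.2 : ℝ) / w) ∧ min 1 ((p.1 : ℝ) / 3 + (p.2 : ℝ) / w) ≤
        min 1 ((p.1 : ℝ) / 3 + ((p.2 : ℝ) + 1) / w) ∧
        min 1 ((p.1 : ℝ) / 3 + ((p.2 : ℝ) + 1) / w) ≤ 1 ∧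
        min 1 ((p.1 : ℝ) / 3 + ((p.2 : ℝ) + 1) / w) - min 1 ((p.1 : ℝ) / 3 + (p.2 : ℝ) / w) ≤ 1 / w
      have e : ((p.2 : ℝ) + 1) / w = (p.2 : ℝ) / w + 1 / w := by ring
      have e0 : (0:ℝ) < 1 / w := by positivity
      refine ⟨le_min zero_le_one (by positivity), ?_, min_le_left _ _, ?_⟩
      · rw [e]
        exact min_le_min le_rfl (by linarith)
      · rw [e]
        rcases le_total 1 ((p.1 : ℝ) / 3 + (p.2 : ℝ) / w) with h | h
        · rw [min_eq_left h, min_eq_left (by linarith)]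
          simp
        · rw [min_eq_right h]
          have := min_le_right 1 ((p.1 : ℝ) / 3 + ((p.2 : ℝ) / w + 1 / w))
          linarith
  · intro x hx
    obtain ⟨a1, a2, a3⟩ := cellIdx_spec hx (A := 3) (by norm_num)
    generalize cellIdx x 3 = c0 at *
    push_cast at a2 a3
    -- the short interval containing `x`
    obtain ⟨r0, hr0, hr1, hr2⟩ : ∃ r0 < q, (c0 : ℝ) / 3 + (r0 : ℝ) / w ≤ x ∧
        x ≤ (c0 : ℝ) / 3 + ((r0 : ℝ) + 1) / w := by
      have y0 : 0 ≤ (x - (c0 : ℝ) / 3) * w := mul_nonneg (by linarith) hw'.le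
      have y1 : (x - (c0 : ℝ) / 3) * w ≤ q := by
        have : x - (c0 : ℝ) / 3 ≤ 1 / 3 := by linarith
        nlinarith
      rcases Nat.lt_or_ge ⌊(x - (c0 : ℝ) / 3) * w⌋₊ q with h | h
      · refine ⟨_, h, ?_, ?_⟩
        · have := Nat.floor_le y0
          have : ((⌊(x - (c0 : ℝ) / 3) * w⌋₊ : ℕ) : ℝ) / w ≤ x - (c0 : ℝ) / 3 := by
            rw [div_le_iff₀ hw']; exact this
          linarith
        · have := (Nat.lt_floor_add_one ((x - (c0 : ℝ) / 3) * w)).le
          have : x - (c0 : ℝ) / 3 ≤ (((⌊(x - (c0 : ℝ) / 3) * w⌋₊ : ℕ) : ℝ) + 1) / w := by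
            rw [le_div_iff₀ hw']; exact this
          linarith
      · have hyq : (x - (c0 : ℝ) / 3) * w = q := by
          refine le_antisymm y1 ?_
          exact le_trans (by exact_mod_cast h) (Nat.floor_le y0)
        have hx' : x = (c0 : ℝ) / 3 + (q : ℝ) / w := by
          field_simp at hyq ⊢
          linarith
        have h1 : ((q - 1 : ℕ) : ℝ) = (q : ℝ) - 1 := by
          rw [Nat.cast_sub hq]; simp
        refine ⟨q - 1, by omega, ?_, ?_⟩
        · rw [hx', h1]
          gcongr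
          linarith
        · rw [hx', h1]
          simp
    have key : ∀ p ∈ Finset.range 3 ×ˢ Finset.range q,
        (1:ℝ) * (uncovered (J p)).indicator 1 x ≤
          if p.1 = c0 then (if p.2 = r0 then 0 else 1) else 0 := by
      intro p hp
      rw [Finset.mem_product, Finset.mem_range, Finset.mem_range] at hp
      rw [one_mul]
      have hle1 : (uncovered (J p)).indicator (1 : ℝ → ℝ) x ≤ 1 := by
        apply indicator_apply_le'
        · intro _; simp
        · intro _; norm_num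
      by_cases hc : p.1 = c0
      · rw [if_pos hc]
        by_cases hr : p.2 = r0
        · rw [if_pos hr]
          have : x ∉ uncovered (J p) := by
            intro hx'
            refine hx'.2 (mem_iUnion.2 ⟨2, ?_⟩)
            change min 1 ((p.1 : ℝ) / 3 + (p.2 : ℝ) / w) ≤ x ∧
              x ≤ min 1 ((p.1 : ℝ) / 3 + ((p.2 : ℝ) + 1) / w)
            rw [hc, hr]
            exact ⟨(min_le_right _ _).trans hr1, le_min hx.2 hr2⟩
          simp [this]
        · rw [if_neg hr]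
          exact hle1
      · rw [if_neg hc]
        have : x ∉ uncovered (J p) := by
          intro hx'
          have h3 : (p.1 + 1) % 3 = c0 ∨ (p.1 + 2) % 3 = c0 := by omega
          rcases h3 with h3 | h3
          · refine hx'.2 (mem_iUnion.2 ⟨0, ?_⟩)
            change (((p.1 + 1) % 3 : ℕ) : ℝ) / 3 ≤ x ∧ x ≤ ((((p.1 + 1) % 3 : ℕ) : ℝ) + 1) / 3
            rw [h3]
            exact ⟨a2, a3⟩
          · refine hx'.2 (mem_iUnion.2 ⟨1, ?_⟩)
            change (((p.1 + 2) % 3 : ℕ) : ℝ) / 3 ≤ x ∧ x ≤ ((((p.1 + 2) % 3 : ℕ) : ℝ) + 1) / 3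
            rw [h3]
            exact ⟨a2, a3⟩
        simp [this]
    refine (Finset.sum_le_sum key).trans ?_
    rw [Finset.sum_product]
    have e1 : ∀ c, ∑ r ∈ Finset.range q, (if (c, r).1 = c0 then
        (if (c, r).2 = r0 then (0:ℝ) else 1) else 0) = if c = c0 then (q : ℝ) - 1 else 0 := by
      intro c
      by_cases hc : c = c0
      · simp only [hc, if_true]
        have : ∀ r, (if r = r0 then (0:ℝ) else 1) = 1 - (if r = r0 then 1 else 0) := by
          intro r; split_ifs <;> norm_num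
        simp only [this, Finset.sum_sub_distrib]
        simp [hr0]
      · simp [hc]
    rw [Finset.sum_congr rfl (fun c _ => e1 c)]
    rw [Finset.sum_ite_eq' (Finset.range 3) c0, if_pos (Finset.mem_range.2 a1)]
    have : 1 / 3 * (1 - 1 / (q : ℝ)) * (3 * q) = q - 1 := by
      field_simp
    rw [this]

/-- BLUE's strategy for two thirds and a short interval. -/
theorem le_G_thirds {w q : ℕ} (hw : 0 < w) (h1 : 3 * q < w + 3) (h2 : w ≤ 3 * q) :
    1 / 3 * (1 - 1 / (q : ℝ)) ≤ G ![1 / 3, 1 / 3, 1 / (w : ℝ)] := by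
  classical
  have hq : 0 < q := by omega
  have hw' : (0:ℝ) < w := by exact_mod_cast hw
  have hq' : (0:ℝ) < q := by exact_mod_cast hq
  let wt : ℕ → ℕ := fun i => ∑ c ∈ Finset.range 3, ∑ r ∈ Finset.range q,
    if i = c * w + 3 * r then 1 else 0
  have hlt : ∀ c ∈ Finset.range 3, ∀ r ∈ Finset.range q, c * w + 3 * r < 3 * w := by
    intro c hc r hr
    rw [Finset.mem_range] at hc hr
    have : c * w ≤ 2 * w := Nat.mul_le_mul_right _ (by omega)
    omega
  have hsumwt : ∀ (p : ℕ → Prop) [DecidablePred p], ∑ i ∈ Finset.range (3 * w) with p i, wt i =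
      ∑ r ∈ Finset.range q, ∑ c ∈ Finset.range 3, if p (c * w + 3 * r) then 1 else 0 := by
    intro p _
    rw [Finset.sum_comm (s := Finset.range q)]
    simp only [wt]
    rw [Finset.sum_comm]
    refine Finset.sum_congr rfl (fun c hc => ?_)
    rw [Finset.sum_comm]
    refine Finset.sum_congr rfl (fun r hr => ?_)
    rw [Finset.sum_ite_eq']
    refine if_congr ?_ rfl rfl
    rw [Finset.mem_filter, Finset.mem_range]
    exact and_iff_right (hlt c hc r hr)
  have hD : ∑ i ∈ Finset.range (3 * w), wt i = 3 * q := by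
    have := hsumwt (fun _ => True)
    simpa [mul_comm] using this
  have hval : 1 / 3 * (1 - 1 / (q : ℝ)) = ((q - 1 : ℕ) : ℝ) / ((3 * q : ℕ) : ℝ) := by
    have h1 : ((q - 1 : ℕ) : ℝ) = (q : ℝ) - 1 := by
      rw [Nat.cast_sub hq]; simp
    rw [h1]
    push_cast
    field_simp
  rw [hval]
  refine discrete_le_G (M := 3 * w) (by omega) ![w, w, 3] ?_ ?_ wt (3 * q) (q - 1) hD (by omega) ?_
  · intro k; fin_cases k
    · exact hw
    · exact hw
    · exact (by norm_num : 1 ≤ 3)
  · intro k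
    fin_cases k
    · change (1:ℝ) / 3 = (w : ℝ) / ((3 * w : ℕ) : ℝ)
      push_cast; field_simp
    · change (1:ℝ) / 3 = (w : ℝ) / ((3 * w : ℕ) : ℝ)
      push_cast; field_simp
    · change (1:ℝ) / w = ((3 : ℕ) : ℝ) / ((3 * w : ℕ) : ℝ)
      push_cast; field_simp
  · intro s
    rw [hsumwt]
    -- at most one residue class is completely covered
    let full : ℕ → Prop := fun r => ∀ c < 3, ¬ (∀ k, ¬ (s k ≤ c * w + 3 * r ∧
      c * w + 3 * r < s k + (![w, w, 3] : Fin 3 → ℕ) k))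
    have hfull : ((Finset.range q).filter full).card ≤ 1 := by
      rw [Finset.card_le_one]
      have key : ∀ r r', r < r' → r' < q → full r → full r' → False := by
        intro r r' hrr hr' hf hf'
        have conv : ∀ x, ¬ (∀ k, ¬ (s k ≤ x ∧ x < s k + (![w, w, 3] : Fin 3 → ℕ) k)) →
            (s 0 ≤ x ∧ x < s 0 + w) ∨ (s 1 ≤ x ∧ x < s 1 + w) ∨ (s 2 ≤ x ∧ x < s 2 + 3) := by
          intro x hx
          by_contra hcon
          push Not at hcon
          apply hx
          intro k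
          fin_cases k
          · exact fun h => absurd h.2 (not_lt.2 (hcon.1 h.1))
          · exact fun h => absurd h.2 (not_lt.2 (hcon.2.1 h.1))
          · exact fun h => absurd h.2 (not_lt.2 (hcon.2.2 h.1))
        have g0 := conv _ (hf 0 (by norm_num))
        have g1 := conv _ (hf 1 (by norm_num))
        have g2 := conv _ (hf 2 (by norm_num))
        have g0' := conv _ (hf' 0 (by norm_num))
        have g1' := conv _ (hf' 1 (by norm_num))
        have g2' := conv _ (hf' 2 (by norm_num))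
        simp only [zero_mul, zero_add, one_mul] at g0 g1 g0' g1'
        exact two_classes w q (s 0) (s 1) (s 2) r r' h1 h2 hrr hr' g0 g1 g2 g0' g1' g2'
      intro r hr r' hr'
      rw [Finset.mem_filter, Finset.mem_range] at hr hr'
      rcases Nat.lt_trichotomy r r' with h | h | h
      · exact (key r r' h hr'.1 hr.2 hr'.2).elim
      · exact h
      · exact (key r' r h hr.1 hr'.2 hr.2).elim
    have hge : ∑ r ∈ Finset.range q, (if full r then 0 else 1) ≤ ∑ r ∈ Finset.range q,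
        ∑ c ∈ Finset.range 3, (if (∀ k, ¬ (s k ≤ c * w + 3 * r ∧
          c * w + 3 * r < s k + (![w, w, 3] : Fin 3 → ℕ) k)) then 1 else 0) := by
      refine Finset.sum_le_sum (fun r _ => ?_)
      by_cases hf : full r
      · simp [hf]
      · rw [if_neg hf]
        simp only [full] at hf
        push Not at hf
        obtain ⟨c, hc, hcc⟩ := hf
        have hcc' : ∀ k, ¬ (s k ≤ c * w + 3 * r ∧
          c * w + 3 * r < s k + (![w, w, 3] : Fin 3 → ℕ) k) := by
          intro k h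
          exact absurd h.2 (not_lt.2 (hcc k h.1))
        have := Finset.single_le_sum (f := fun c => (if (∀ k, ¬ (s k ≤ c * w + 3 * r ∧
          c * w + 3 * r < s k + (![w, w, 3] : Fin 3 → ℕ) k)) then 1 else 0))
          (fun _ _ => Nat.zero_le _) (Finset.mem_range.2 hc)
        rwa [if_pos hcc'] at this
    refine le_trans ?_ hge
    have h5 : ∑ r ∈ Finset.range q, (if full r then 0 else 1) =
        ((Finset.range q).filter (fun r => ¬ full r)).card := by
      rw [Finset.card_filter]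
      refine Finset.sum_congr rfl (fun r _ => ?_)
      by_cases hf : full r <;> simp [hf]
    have h6 := Finset.card_filter_add_card_filter_not (s := Finset.range q) full
    rw [Finset.card_range] at h6
    rw [h5]
    omega

end Pool.Agent.KS6_49.TI
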