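import Pool.Agent.KS6_49.TI.Game
import Pool.Agent.KS6_49.TI.Basic

/-!
RED strategies: from grid couplings, from explicit lists of grid windows, and for `u = v = 3`.
-/

namespace Pool.Agent.KS6_49.TI

open MeasureTheory Set

/-- The index of a grid cell containing `x`. -/
noncomputable def cellIdx (x : ℝ) (A : ℕ) : ℕ := if x < 1 then ⌊x * A⌋₊ else A - 1

lemma cellIdx_spec {x : ℝ} (hx : x ∈ Icc (0:ℝ) 1) {A : ℕ} (hA : 0 < A) :
    cellIdx x A < A ∧ (cellIdx x A : ℝ) / A ≤ x ∧ x ≤ ((cellIdx x A : ℝ) + 1) / A := by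
  have hA' : (0:ℝ) < A := by exact_mod_cast hA
  unfold cellIdx
  split_ifs with h
  · have h0 : 0 ≤ x * A := mul_nonneg hx.1 hA'.le
    refine ⟨?_, ?_, ?_⟩
    · rw [Nat.floor_lt h0]; nlinarith
    · rw [div_le_iff₀ hA']; exact Nat.floor_le h0
    · rw [le_div_iff₀ hA']; exact (Nat.lt_floor_add_one _).le
  · have hx1 : x = 1 := le_antisymm hx.2 (not_lt.1 h)
    subst hx1
    have h1 : ((A - 1 : ℕ) : ℝ) = (A : ℝ) - 1 := by
      rw [Nat.cast_sub hA]; simp
    refine ⟨by omega, ?_, ?_⟩
    · rw [div_le_iff₀ hA', h1]; linarith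
    · rw [le_div_iff₀ hA', h1]; linarith

lemma cellIdx_not_dj {x : ℝ} (hx : x ∈ Icc (0:ℝ) 1) {A B : ℕ} (hA : 0 < A) (hB : 0 < B) :
    ¬ Dj (cellIdx x A) A (cellIdx x B) B := by
  have key : ∀ A B : ℕ, 0 < A → 0 < B → ¬ ((cellIdx x A + 1) * B ≤ cellIdx x B * A) := by
    intro A B hA hB h
    have hA' : (0:ℝ) < A := by exact_mod_cast hA
    have hB' : (0:ℝ) < B := by exact_mod_cast hB
    unfold cellIdx at h
    split_ifs at h with h1
    · have e1 : x * A < (⌊x * A⌋₊ : ℝ) + 1 := Nat.lt_floor_add_one _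
      have e2 : (⌊x * B⌋₊ : ℝ) ≤ x * B := Nat.floor_le (mul_nonneg hx.1 hB'.le)
      have e3 : ((⌊x * A⌋₊ : ℝ) + 1) * B ≤ (⌊x * B⌋₊ : ℝ) * A := by exact_mod_cast h
      nlinarith
    · have e1 : (A - 1 + 1) * B = A * B := by rw [Nat.sub_add_cancel hA]
      rw [e1] at h
      have e2 : (B - 1) * A = B * A - A := by rw [Nat.sub_mul, one_mul]
      have e3 : B * A = A * B := mul_comm _ _
      have e4 : A ≤ A * B := Nat.le_mul_of_pos_right A hB
      omega
  intro h
  rcases h with h | h
  · exact key A B hA hB h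
  · exact key B A hB hA h

/-- The triple of cells. -/
noncomputable def cellJ (u v w : ℕ) (r : ℕ × ℕ × ℕ) : Fin 3 → ℝ × ℝ :=
  ![((r.1 : ℝ) / u, ((r.1 : ℝ) + 1) / u), ((r.2.1 : ℝ) / v, ((r.2.1 : ℝ) + 1) / v),
    ((r.2.2 : ℝ) / w, ((r.2.2 : ℝ) + 1) / w)]

lemma cell_ok {A i : ℕ} (hA : 0 < A) (hi : i < A) : 0 ≤ (i : ℝ) / A ∧
    (i : ℝ) / A ≤ ((i : ℝ) + 1) / A ∧ ((i : ℝ) + 1) / A ≤ 1 ∧
    ((i : ℝ) + 1) / A - (i : ℝ) / A ≤ 1 / A := by
  have hA' : (0:ℝ) < A := by exact_mod_cast hA
  refine ⟨by positivity, ?_, ?_, ?_⟩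
  · gcongr; linarith
  · rw [div_le_one hA']
    exact_mod_cast hi
  · rw [← sub_div]; simp

theorem G_le_of_good {u v w : ℕ} (hu : 0 < u) (hv : 0 < v) (hw : 0 < w) (h : Good u v w) :
    G ![1 / (u : ℝ), 1 / (v : ℝ), 1 / (w : ℝ)] ≤ 1 - 1 / u - 1 / v - 1 / w := by
  classical
  obtain ⟨T, m, hT, hd, h1, h2, h3⟩ := h
  have hu' : (0:ℝ) < u := by exact_mod_cast hu
  have hv' : (0:ℝ) < v := by exact_mod_cast hv
  have hw' : (0:ℝ) < w := by exact_mod_cast hw
  have hT' : (0:ℝ) < T := by exact_mod_cast hT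
  have h1' : ∀ i < u, ∑ j ∈ Finset.range v, ∑ k ∈ Finset.range w, (m i j k : ℝ) = T / u := by
    intro i hi
    rw [eq_div_iff hu'.ne', mul_comm]
    exact_mod_cast h1 i hi
  have h2' : ∀ j < v, ∑ i ∈ Finset.range u, ∑ k ∈ Finset.range w, (m i j k : ℝ) = T / v := by
    intro i hi
    rw [eq_div_iff hv'.ne', mul_comm]
    exact_mod_cast h2 i hi
  have h3' : ∀ k < w, ∑ i ∈ Finset.range u, ∑ j ∈ Finset.range v, (m i j k : ℝ) = T / w := by
    intro i hi
    rw [eq_div_iff hw'.ne', mul_comm]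
    exact_mod_cast h3 i hi
  have hsum : ∑ i ∈ Finset.range u, ∑ j ∈ Finset.range v, ∑ k ∈ Finset.range w, (m i j k : ℝ)
      = T := by
    rw [Finset.sum_congr rfl (fun i hi => h1' i (Finset.mem_range.1 hi))]
    simp only [Finset.sum_const, Finset.card_range, nsmul_eq_mul]
    field_simp
  refine G_le (T := T) hT' (Finset.range u ×ˢ Finset.range v ×ˢ Finset.range w)
    (fun r => (m r.1 r.2.1 r.2.2 : ℝ)) (fun _ _ => by positivity) ?_ (cellJ u v w) ?_ ?_
  · rw [Finset.sum_product]
    simp only [Finset.sum_product]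
    exact hsum
  · intro r hr
    simp only [Finset.mem_product, Finset.mem_range] at hr
    intro i
    fin_cases i
    · exact cell_ok hu hr.1
    · exact cell_ok hv hr.2.1
    · exact cell_ok hw hr.2.2
  · intro x hx
    obtain ⟨a1, a2, a3⟩ := cellIdx_spec hx hu
    obtain ⟨b1, b2, b3⟩ := cellIdx_spec hx hv
    obtain ⟨c1, c2, c3⟩ := cellIdx_spec hx hw
    have nuv := cellIdx_not_dj hx hu hv
    have nuw := cellIdx_not_dj hx hu hw
    have nvw := cellIdx_not_dj hx hv hw
    generalize cellIdx x u = i0 at *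
    generalize cellIdx x v = j0 at *
    generalize cellIdx x w = k0 at *
    have key : ∀ i j k : ℕ, (m i j k : ℝ) * (uncovered (cellJ u v w (i, j, k))).indicator 1 x ≤
        (m i j k : ℝ) - (if i = i0 then (m i j k : ℝ) else 0) -
          (if j = j0 then (m i j k : ℝ) else 0) - (if k = k0 then (m i j k : ℝ) else 0) := by
      intro i j k
      by_cases hm : m i j k = 0
      · simp [hm]
      obtain ⟨d1, d2, d3⟩ := hd i j k hm
      by_cases hi : i = i0
      · subst hi
        have hj : j ≠ j0 := by rintro rfl; exact nuv d1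
        have hk : k ≠ k0 := by rintro rfl; exact nuw d2
        have : x ∉ uncovered (cellJ u v w (i, j, k)) := by
          intro hx'
          exact hx'.2 (mem_iUnion.2 ⟨0, a2, a3⟩)
        simp [this, hj, hk]
      by_cases hj : j = j0
      · subst hj
        have hk : k ≠ k0 := by rintro rfl; exact nvw d3
        have : x ∉ uncovered (cellJ u v w (i, j, k)) := by
          intro hx'
          exact hx'.2 (mem_iUnion.2 ⟨1, b2, b3⟩)
        simp [this, hi, hk]
      by_cases hk : k = k0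
      · subst hk
        have : x ∉ uncovered (cellJ u v w (i, j, k)) := by
          intro hx'
          exact hx'.2 (mem_iUnion.2 ⟨2, c2, c3⟩)
        simp [this, hi, hj]
      · simp only [hi, hj, hk, if_false, sub_zero]
        have : (uncovered (cellJ u v w (i, j, k))).indicator (1 : ℝ → ℝ) x ≤ 1 := by
          apply indicator_apply_le'
          · intro _; simp
          · intro _; norm_num
        have hm0 : (0:ℝ) ≤ m i j k := by positivity
        nlinarith
    rw [Finset.sum_product]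
    simp only [Finset.sum_product]
    have e1 : ∑ i ∈ Finset.range u, ∑ j ∈ Finset.range v, ∑ k ∈ Finset.range w,
        (if i = i0 then (m i j k : ℝ) else 0) = T / u := by
      rw [← h1' i0 a1]
      rw [Finset.sum_eq_single i0]
      · simp
      · intro i _ hi
        simp [hi]
      · intro hi
        exact absurd (Finset.mem_range.2 a1) hi
    have e2 : ∑ i ∈ Finset.range u, ∑ j ∈ Finset.range v, ∑ k ∈ Finset.range w,
        (if j = j0 then (m i j k : ℝ) else 0) = T / v := by
      rw [← h2' j0 b1]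
      refine Finset.sum_congr rfl (fun i _ => ?_)
      rw [Finset.sum_eq_single j0]
      · simp
      · intro i _ hi
        simp [hi]
      · intro hi
        exact absurd (Finset.mem_range.2 b1) hi
    have e3 : ∑ i ∈ Finset.range u, ∑ j ∈ Finset.range v, ∑ k ∈ Finset.range w,
        (if k = k0 then (m i j k : ℝ) else 0) = T / w := by
      rw [← h3' k0 c1]
      refine Finset.sum_congr rfl (fun i _ => Finset.sum_congr rfl (fun j _ => ?_))
      rw [Finset.sum_eq_single k0]
      · simp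
      · intro i _ hi
        simp [hi]
      · intro hi
        exact absurd (Finset.mem_range.2 c1) hi
    calc ∑ i ∈ Finset.range u, ∑ j ∈ Finset.range v, ∑ k ∈ Finset.range w,
          (m i j k : ℝ) * (uncovered (cellJ u v w (i, j, k))).indicator 1 x
        ≤ ∑ i ∈ Finset.range u, ∑ j ∈ Finset.range v, ∑ k ∈ Finset.range w,
          ((m i j k : ℝ) - (if i = i0 then (m i j k : ℝ) else 0) -
          (if j = j0 then (m i j k : ℝ) else 0) - (if k = k0 then (m i j k : ℝ) else 0)) :=
          Finset.sum_le_sum (fun i _ => Finset.sum_le_sum (fun j _ =>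
            Finset.sum_le_sum (fun k _ => key i j k)))
      _ = T - T / u - T / v - T / w := by
          simp only [Finset.sum_sub_distrib]
          rw [hsum, e1, e2, e3]
      _ = (1 - 1 / u - 1 / v - 1 / w) * T := by ring

end Pool.Agent.KS6_49.TI
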